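import Mathlib

/-!
Random subsets of a random member of a family `F` of `m`-subsets of a finite set `V`:
the conditional entropies `h t` of the next point given the first `t` points.
-/

set_option autoImplicit false

namespace Pool.N3

open Finset

variable {V : Type*} [Fintype V] [DecidableEq V]

/-- number of members of `F` containing `R` -/
noncomputable def W (F : Finset (Finset V)) (R : Finset V) : ℝ :=
  ((F.filter (fun S => R ⊆ S)).card : ℝ)

/-- law of the next point given the set `R` of points seen so far -/
noncomputable def mu (F : Finset (Finset V)) (m : ℕ) (R : Finset V) (x : V) : ℝ :=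
  if x ∈ R then 0 else W F (insert x R) / (((m : ℝ) - R.card) * W F R)

/-- probability that the random `|R|`-subset of a random member of `F` is `R` -/
noncomputable def pr (F : Finset (Finset V)) (m : ℕ) (R : Finset V) : ℝ :=
  W F R / ((F.card : ℝ) * (m.choose R.card : ℝ))

/-- Shannon entropy -/
noncomputable def ent (p : V → ℝ) : ℝ := ∑ x, Real.negMulLog (p x)

/-- entropy of the next point given the first `t` points -/
noncomputable def h (F : Finset (Finset V)) (m t : ℕ) : ℝ :=
  ∑ R ∈ powersetCard t univ, pr F m R * ent (mu F m R)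

/-- the summand of relative entropy -/
noncomputable def phi (a b : ℝ) : ℝ := a * Real.log (a / b) - a + b

/-- relative entropy of the pair of the next two points with respect to the product law -/
noncomputable def dk (F : Finset (Finset V)) (m : ℕ) (R : Finset V) : ℝ :=
  ∑ x, ∑ y, phi (mu F m R x * mu F m (insert x R) y) (mu F m R x * mu F m R y)

lemma W_nonneg (F : Finset (Finset V)) (R : Finset V) : 0 ≤ W F R := by
  unfold W; positivity

lemma W_mono (F : Finset (Finset V)) {R R' : Finset V} (hR : R ⊆ R') : W F R' ≤ W F R := by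
  unfold W
  exact_mod_cast card_le_card (fun S hS => by
    simp only [mem_filter] at hS ⊢
    exact ⟨hS.1, hR.trans hS.2⟩)

lemma W_pos_iff (F : Finset (Finset V)) (R : Finset V) :
    0 < W F R ↔ ∃ S ∈ F, R ⊆ S := by
  unfold W
  rw [Nat.cast_pos, card_pos]
  constructor
  · rintro ⟨S, hS⟩
    simp only [mem_filter] at hS
    exact ⟨S, hS.1, hS.2⟩
  · rintro ⟨S, h1, h2⟩
    exact ⟨S, by simp only [mem_filter]; exact ⟨h1, h2⟩⟩

lemma W_ne_zero_iff (F : Finset (Finset V)) (R : Finset V) :
    W F R ≠ 0 ↔ 0 < W F R := by
  have := W_nonneg F R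
  constructor
  · intro h; exact lt_of_le_of_ne this (Ne.symm h)
  · intro h; exact ne_of_gt h

lemma card_le_of_W_pos {F : Finset (Finset V)} {m : ℕ} (hF : ∀ S ∈ F, S.card = m)
    {R : Finset V} (hR : 0 < W F R) : R.card ≤ m := by
  obtain ⟨S, hS, hRS⟩ := (W_pos_iff F R).1 hR
  rw [← hF S hS]
  exact card_le_card hRS

/-- double counting the one-point extensions -/
lemma sum_W_insert {F : Finset (Finset V)} {m : ℕ} (hF : ∀ S ∈ F, S.card = m)
    (R : Finset V) :
    ∑ x ∈ univ \ R, W F (insert x R) = ((m : ℝ) - R.card) * W F R := by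
  have h1 : ∀ x ∈ univ \ R, W F (insert x R)
      = ∑ S ∈ F.filter (fun S => R ⊆ S), if x ∈ S then (1 : ℝ) else 0 := by
    intro x hx
    unfold W
    rw [← sum_filter, sum_const, nsmul_eq_mul, mul_one, filter_filter]
    congr 2
    ext S
    simp only [mem_filter, insert_subset_iff]
    tauto
  rw [sum_congr rfl h1, sum_comm]
  have h2 : ∀ S ∈ F.filter (fun S => R ⊆ S),
      ∑ x ∈ univ \ R, (if x ∈ S then (1 : ℝ) else 0) = (m : ℝ) - R.card := by
    intro S hS
    simp only [mem_filter] at hS
    rw [← sum_filter, sum_const, nsmul_eq_mul, mul_one]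
    have h3 : (univ \ R).filter (fun x => x ∈ S) = S \ R := by
      ext x
      simp only [mem_filter, mem_sdiff, mem_univ, true_and]
      tauto
    rw [h3, card_sdiff_of_subset hS.2, Nat.cast_sub (card_le_card hS.2), hF S hS.1]
  rw [sum_congr rfl h2, sum_const, nsmul_eq_mul]
  unfold W
  ring

lemma mu_nonneg {F : Finset (Finset V)} {m : ℕ} (hF : ∀ S ∈ F, S.card = m)
    (R : Finset V) (x : V) : 0 ≤ mu F m R x := by
  unfold mu
  split_ifs with hx
  · exact le_refl _
  · by_cases hR : 0 < W F R
    · have h1 := card_le_of_W_pos hF hR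
      have h2 : (0 : ℝ) ≤ (m : ℝ) - R.card := by
        have : (R.card : ℝ) ≤ m := by exact_mod_cast h1
        linarith
      exact div_nonneg (W_nonneg _ _) (mul_nonneg h2 (W_nonneg _ _))
    · have h1 : W F R = 0 := le_antisymm (not_lt.1 hR) (W_nonneg _ _)
      rw [h1, mul_zero, div_zero]

lemma sum_mu {F : Finset (Finset V)} {m : ℕ} (hF : ∀ S ∈ F, S.card = m)
    {R : Finset V} (hR : 0 < W F R) (hm : R.card < m) : ∑ x, mu F m R x = 1 := by
  have h1 : ∑ x, mu F m R x = ∑ x ∈ univ \ R, W F (insert x R) / (((m : ℝ) - R.card) * W F R) := by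
    unfold mu
    rw [← sum_sdiff (subset_univ R)]
    rw [sum_congr rfl (g := fun x => W F (insert x R) / (((m : ℝ) - R.card) * W F R))
      (fun x hx => by rw [if_neg (mem_sdiff.1 hx).2])]
    rw [sum_eq_zero (s := R) (fun x hx => by rw [if_pos hx]), add_zero]
  rw [h1, ← sum_div, sum_W_insert hF]
  apply div_self
  have : (R.card : ℝ) < m := by exact_mod_cast hm
  have h2 : (0 : ℝ) < (m : ℝ) - R.card := by linarith
  positivity

lemma mu_pos_iff {F : Finset (Finset V)} {m : ℕ}
    {R : Finset V} (hm : R.card < m) (x : V) :
    0 < mu F m R x ↔ x ∉ R ∧ 0 < W F (insert x R) := by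
  unfold mu
  have h0 : (R.card : ℝ) < m := by exact_mod_cast hm
  have h2 : (0 : ℝ) < (m : ℝ) - R.card := by linarith
  split_ifs with hx
  · simp [hx]
  · constructor
    · intro h
      refine ⟨hx, ?_⟩
      by_contra h3
      have h4 : W F (insert x R) = 0 := le_antisymm (not_lt.1 h3) (W_nonneg _ _)
      rw [h4, zero_div] at h
      exact lt_irrefl _ h
    · rintro ⟨-, h⟩
      have h5 : 0 < W F R := lt_of_lt_of_le h (W_mono F (subset_insert x R))
      positivity

/-- exchangeability of two consecutive points -/
lemma mu_swap {F : Finset (Finset V)} {m : ℕ}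
    {R : Finset V} (x y : V) :
    mu F m R x * mu F m (insert x R) y = mu F m R y * mu F m (insert y R) x := by
  unfold mu
  by_cases hx : x ∈ R
  · rw [if_pos hx, zero_mul]
    have : x ∈ insert y R := mem_insert_of_mem hx
    rw [if_pos this, mul_zero]
  · by_cases hy : y ∈ R
    · have : y ∈ insert x R := mem_insert_of_mem hy
      rw [if_pos this, mul_zero, if_pos hy, zero_mul]
    · by_cases hxy : x = y
      · subst hxy; rfl
      · rw [if_neg hx, if_neg hy]
        have h1 : y ∉ insert x R := by
          rw [mem_insert]; push Not; exact ⟨fun h => hxy h.symm, hy⟩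
        have h2 : x ∉ insert y R := by
          rw [mem_insert]; push Not; exact ⟨hxy, hx⟩
        rw [if_neg h1, if_neg h2, card_insert_of_notMem hx, card_insert_of_notMem hy,
          insert_comm y x R]
        by_cases hz : W F (insert x (insert y R)) = 0
        · rw [hz]; simp
        · have h3 : W F (insert x R) ≠ 0 := by
            intro h
            apply hz
            apply le_antisymm _ (W_nonneg _ _)
            rw [← h]
            apply W_mono
            intro z hz'
            simp only [mem_insert] at hz' ⊢
            tauto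
          have h4 : W F (insert y R) ≠ 0 := by
            intro h
            apply hz
            apply le_antisymm _ (W_nonneg _ _)
            rw [← h]
            apply W_mono
            intro z hz'
            simp only [mem_insert] at hz' ⊢
            tauto
          have e : ∀ p q r c d : ℝ, p ≠ 0 → q ≠ 0 →
              p / (c * r) * (d / (p)) = q / (c * r) * (d / q) := by
            intro p q r c d hp hq
            by_cases hcr : c * r = 0
            · rw [hcr]; simp
            · field_simp
          have e1 : W F (insert x (insert y R)) / (((m : ℝ) - ((R.card + 1 : ℕ) : ℝ)) * W F (insert x R))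
              = (W F (insert x (insert y R)) / ((m : ℝ) - ((R.card + 1 : ℕ) : ℝ))) / W F (insert x R) := by
            rw [div_div]
          have e2 : W F (insert x (insert y R)) / (((m : ℝ) - ((R.card + 1 : ℕ) : ℝ)) * W F (insert y R))
              = (W F (insert x (insert y R)) / ((m : ℝ) - ((R.card + 1 : ℕ) : ℝ))) / W F (insert y R) := by
            rw [div_div]
          rw [e1, e2]
          exact e _ _ _ _ _ h3 h4

/-- marginal of the pair law -/
lemma sum_pair {F : Finset (Finset V)} {m : ℕ} (hF : ∀ S ∈ F, S.card = m)
    {R : Finset V} (hm : R.card + 1 < m) (y : V) :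
    ∑ x, mu F m R x * mu F m (insert x R) y = mu F m R y := by
  have h1 : ∀ x ∈ (univ : Finset V), mu F m R x * mu F m (insert x R) y
      = mu F m R y * mu F m (insert y R) x := fun x _ => mu_swap x y
  rw [sum_congr rfl h1, ← mul_sum]
  by_cases h0 : mu F m R y = 0
  · rw [h0, zero_mul]
  · have h2 : 0 < mu F m R y := lt_of_le_of_ne (mu_nonneg hF R y) (Ne.symm h0)
    obtain ⟨h3, h4⟩ := (mu_pos_iff (by omega) y).1 h2
    rw [sum_mu hF h4 (by rw [card_insert_of_notMem h3]; omega), mul_one]

lemma sum_pair' {F : Finset (Finset V)} {m : ℕ} (hF : ∀ S ∈ F, S.card = m)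
    {R : Finset V} (hm : R.card + 1 < m) (x : V) :
    ∑ y, mu F m R x * mu F m (insert x R) y = mu F m R x := by
  have h1 : ∀ y ∈ (univ : Finset V), mu F m R x * mu F m (insert x R) y
      = mu F m R y * mu F m (insert y R) x := fun y _ => mu_swap x y
  rw [sum_congr rfl h1]
  exact sum_pair hF hm x

end Pool.N3
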