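import Mathlib
import Pool.Agent.Helper77.N3.Ent

set_option autoImplicit false
set_option linter.unusedSectionVars false

namespace Pool.N3

open Finset

variable {V : Type*} [Fintype V] [DecidableEq V]

/-- adding a point / removing a point -/
lemma sum_powersetCard_succ (t : ℕ) (f : Finset V → V → ℝ) :
    ∑ R ∈ powersetCard t univ, ∑ x ∈ univ \ R, f R x
      = ∑ R ∈ powersetCard (t + 1) univ, ∑ x ∈ R, f (R.erase x) x := by
  rw [sum_sigma', sum_sigma']
  refine sum_bij' (fun p _ => (⟨insert p.2 p.1, p.2⟩ : Σ _ : Finset V, V))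
    (fun p _ => (⟨p.1.erase p.2, p.2⟩ : Σ _ : Finset V, V)) ?_ ?_ ?_ ?_ ?_
  · rintro ⟨R, x⟩ hp
    simp only [mem_sigma, mem_powersetCard, mem_sdiff, mem_univ, true_and, subset_univ] at hp ⊢
    exact ⟨by rw [card_insert_of_notMem hp.2, hp.1], mem_insert_self _ _⟩
  · rintro ⟨R, x⟩ hp
    simp only [mem_sigma, mem_powersetCard, mem_sdiff, mem_univ, true_and, subset_univ] at hp ⊢
    refine ⟨by rw [card_erase_of_mem hp.2, hp.1]; rfl, notMem_erase _ _⟩
  · rintro ⟨R, x⟩ hp
    simp only [mem_sigma, mem_powersetCard, mem_sdiff, mem_univ, true_and, subset_univ] at hp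
    simp only [erase_insert hp.2]
  · rintro ⟨R, x⟩ hp
    simp only [mem_sigma, mem_powersetCard, mem_sdiff, mem_univ, true_and, subset_univ] at hp
    simp only [insert_erase hp.2]
  · rintro ⟨R, x⟩ hp
    simp only [mem_sigma, mem_powersetCard, mem_sdiff, mem_univ, true_and, subset_univ] at hp
    simp only [erase_insert hp.2]

lemma pr_nonneg (F : Finset (Finset V)) (m : ℕ) (R : Finset V) : 0 ≤ pr F m R := by
  unfold pr
  exact div_nonneg (W_nonneg _ _) (by positivity)

lemma pr_mul_mu {F : Finset (Finset V)} {m : ℕ} {R : Finset V} {x : V}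
    (hx : x ∉ R) (hm : R.card < m) :
    pr F m R * mu F m R x = pr F m (insert x R) / ((R.card : ℝ) + 1) := by
  unfold pr mu
  rw [if_neg hx, card_insert_of_notMem hx]
  have h0 : (R.card : ℝ) < m := by exact_mod_cast hm
  have h2 : (m : ℝ) - R.card ≠ 0 := by
    have : (0 : ℝ) < (m : ℝ) - R.card := by linarith
    exact ne_of_gt this
  by_cases hW : W F R = 0
  · have h1 : W F (insert x R) = 0 := by
      apply le_antisymm _ (W_nonneg _ _)
      rw [← hW]
      exact W_mono F (subset_insert x R)
    rw [hW, h1]; simp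
  · have h3 : ((m.choose (R.card + 1) : ℕ) : ℝ) * ((R.card : ℝ) + 1)
        = (m.choose R.card : ℝ) * ((m : ℝ) - R.card) := by
      have := Nat.choose_succ_right_eq m R.card
      have h4 : ((m.choose (R.card + 1) * (R.card + 1) : ℕ) : ℝ)
          = ((m.choose R.card * (m - R.card) : ℕ) : ℝ) := by exact_mod_cast this
      rw [Nat.cast_mul, Nat.cast_mul, Nat.cast_sub hm.le] at h4
      push_cast at h4
      exact h4
    have h5 : (m.choose R.card : ℝ) ≠ 0 := by
      have := Nat.choose_pos hm.le
      positivity
    have h6 : (m.choose (R.card + 1) : ℝ) ≠ 0 := by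
      have := Nat.choose_pos (show R.card + 1 ≤ m by omega)
      positivity
    have h7 : ((R.card : ℝ) + 1) ≠ 0 := by positivity
    by_cases hc : (F.card : ℝ) = 0
    · rw [hc]; simp
    · rw [div_mul_div_comm, div_div, div_eq_div_iff]
      · linear_combination (-(W F R * W F (insert x R) * (F.card : ℝ))) * h3 * (-1)
      · positivity
      · positivity

/-- the exchange identity -/
theorem swap_sum {F : Finset (Finset V)} {m : ℕ} {t : ℕ} (ht : t < m)
    (g : Finset V → V → ℝ) :
    ∑ R ∈ powersetCard t univ, pr F m R * ∑ x, mu F m R x * g R x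
      = (1 / ((t : ℝ) + 1)) *
        ∑ R ∈ powersetCard (t + 1) univ, pr F m R * ∑ x ∈ R, g (R.erase x) x := by
  have h1 : ∀ R ∈ powersetCard t (univ : Finset V),
      pr F m R * ∑ x, mu F m R x * g R x
        = ∑ x ∈ univ \ R, pr F m (insert x R) / ((t : ℝ) + 1) * g R x := by
    intro R hR
    rw [mem_powersetCard] at hR
    rw [mul_sum, ← sum_sdiff (subset_univ R)]
    rw [sum_eq_zero (s := R) (fun x hx => by
      unfold mu; rw [if_pos hx]; simp), add_zero]
    apply sum_congr rfl
    intro x hx
    have hx' := (mem_sdiff.1 hx).2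
    rw [← mul_assoc, pr_mul_mu hx' (by rw [hR.2]; exact ht), hR.2]
  rw [sum_congr rfl h1,
    sum_powersetCard_succ t (fun R x => pr F m (insert x R) / ((t : ℝ) + 1) * g R x), mul_sum]
  apply sum_congr rfl
  intro R hR
  rw [mul_sum, mul_sum]
  apply sum_congr rfl
  intro x hx
  simp only [insert_erase hx]
  ring

/-- consequence for functions of the set only -/
theorem swap_sum' {F : Finset (Finset V)} {m : ℕ} {t : ℕ} (ht : t < m)
    (g : Finset V → ℝ) :
    ∑ R ∈ powersetCard t univ, pr F m R * ∑ x, mu F m R x * g (insert x R)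
      = ∑ R ∈ powersetCard (t + 1) univ, pr F m R * g R := by
  rw [swap_sum ht (fun R x => g (insert x R)), mul_sum]
  apply sum_congr rfl
  intro R hR
  rw [mem_powersetCard] at hR
  have h1 : ∑ x ∈ R, g (insert x (R.erase x)) = ((t : ℝ) + 1) * g R := by
    rw [sum_congr rfl (g := fun _ => g R) (fun x hx => by rw [insert_erase hx]), sum_const,
      nsmul_eq_mul, hR.2]
    push_cast
    ring
  rw [h1]
  have : ((t : ℝ) + 1) ≠ 0 := by positivity
  field_simp

/-- the probabilities sum to one -/
theorem sum_pr {F : Finset (Finset V)} {m : ℕ} (hF : ∀ S ∈ F, S.card = m) (hne : F.Nonempty)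
    (t : ℕ) (ht : t ≤ m) : ∑ R ∈ powersetCard t univ, pr F m R = 1 := by
  induction t with
  | zero =>
    rw [powersetCard_zero, sum_singleton]
    unfold pr W
    have : F.filter (fun S => ∅ ⊆ S) = F := by
      apply filter_true_of_mem; intro S _; exact empty_subset S
    rw [this]
    have h1 : (F.card : ℝ) ≠ 0 := by
      have := hne.card_pos
      positivity
    simp [h1]
  | succ t ih =>
    have h1 := swap_sum' (F := F) (m := m) (t := t) (by omega) (fun _ => (1 : ℝ))
    simp only [mul_one] at h1
    rw [← h1, ← ih (by omega)]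
    apply sum_congr rfl
    intro R hR
    rw [mem_powersetCard] at hR
    by_cases hW : W F R = 0
    · unfold pr; rw [hW]; simp
    · rw [sum_mu hF ((W_ne_zero_iff F R).1 hW) (by omega), mul_one]

lemma mu_le_one {F : Finset (Finset V)} {m : ℕ} (hF : ∀ S ∈ F, S.card = m)
    (R : Finset V) (hm : R.card < m) (x : V) : mu F m R x ≤ 1 := by
  by_cases hW : W F R = 0
  · unfold mu; rw [hW]; split_ifs <;> simp
  · rw [← sum_mu hF ((W_ne_zero_iff F R).1 hW) hm]
    exact single_le_sum (fun y _ => mu_nonneg hF R y) (mem_univ x)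

/-- relative entropy as a difference of entropies -/
theorem dk_eq {F : Finset (Finset V)} {m : ℕ} (hF : ∀ S ∈ F, S.card = m)
    {R : Finset V} (hm : R.card + 1 < m) (hW : 0 < W F R) :
    dk F m R = ent (mu F m R) - ∑ x, mu F m R x * ent (mu F m (insert x R)) := by
  have key : ∀ x y : V, phi (mu F m R x * mu F m (insert x R) y) (mu F m R x * mu F m R y)
      = - (mu F m R x * Real.negMulLog (mu F m (insert x R) y))
        - (mu F m R x * mu F m (insert x R) y) * Real.log (mu F m R y)
        - mu F m R x * mu F m (insert x R) y + mu F m R x * mu F m R y := by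
    intro x y
    unfold phi
    by_cases h1 : mu F m R x * mu F m (insert x R) y = 0
    · rw [h1]
      rcases mul_eq_zero.1 h1 with h2 | h2
      · rw [h2]; simp
      · rw [h2]; simp
    · have h2 : mu F m R x ≠ 0 := left_ne_zero_of_mul h1
      have h3 : mu F m (insert x R) y ≠ 0 := right_ne_zero_of_mul h1
      have h4 : mu F m R y ≠ 0 := by
        have := mu_swap (F := F) (m := m) (R := R) x y
        rw [this] at h1
        exact left_ne_zero_of_mul h1
      have h5 : mu F m R x * mu F m (insert x R) y / (mu F m R x * mu F m R y)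
          = mu F m (insert x R) y / mu F m R y := by
        field_simp
      rw [h5, Real.log_div h3 h4]
      unfold Real.negMulLog
      ring
  unfold dk
  rw [sum_congr rfl (fun x _ => sum_congr rfl (fun y _ => key x y))]
  simp only [sum_add_distrib, sum_sub_distrib]
  have e1 : ∑ x, ∑ y, -(mu F m R x * Real.negMulLog (mu F m (insert x R) y))
      = - ∑ x, mu F m R x * ent (mu F m (insert x R)) := by
    rw [← sum_neg_distrib]
    apply sum_congr rfl
    intro x _
    rw [sum_neg_distrib, ← mul_sum]
    rfl
  have e2 : ∑ x, ∑ y, mu F m R x * mu F m (insert x R) y * Real.log (mu F m R y)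
      = - ent (mu F m R) := by
    rw [sum_comm]
    unfold ent
    rw [← sum_neg_distrib]
    apply sum_congr rfl
    intro y _
    rw [← sum_mul, sum_pair hF hm]
    unfold Real.negMulLog
    ring
  have e3 : ∑ x, ∑ y, mu F m R x * mu F m (insert x R) y = 1 := by
    rw [sum_congr rfl (fun x _ => sum_pair' hF hm x), sum_mu hF hW (by omega)]
  have e4 : ∑ x, ∑ y, mu F m R x * mu F m R y = 1 := by
    rw [← sum_mul_sum, sum_mu hF hW (by omega)]
    norm_num
  rw [e1, e2, e3, e4]
  ring

/-- the entropy drop -/
theorem step_eq {F : Finset (Finset V)} {m : ℕ} (hF : ∀ S ∈ F, S.card = m) {t : ℕ}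
    (ht : t + 1 < m) :
    ∑ R ∈ powersetCard t univ, pr F m R * dk F m R = h F m t - h F m (t + 1) := by
  have h1 : ∀ R ∈ powersetCard t (univ : Finset V), pr F m R * dk F m R
      = pr F m R * ent (mu F m R)
        - pr F m R * ∑ x, mu F m R x * ent (mu F m (insert x R)) := by
    intro R hR
    rw [mem_powersetCard] at hR
    by_cases hW : W F R = 0
    · unfold pr; rw [hW]; simp
    · rw [dk_eq hF (by rw [hR.2]; exact ht) ((W_ne_zero_iff F R).1 hW)]
      ring
  rw [sum_congr rfl h1, sum_sub_distrib,
    swap_sum' (by omega) (fun R => ent (mu F m R))]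
  rfl

/-- entropy in terms of the counting function -/
theorem ent_mu {F : Finset (Finset V)} {m : ℕ} (hF : ∀ S ∈ F, S.card = m)
    {R : Finset V} (hm : R.card < m) (hW : 0 < W F R) :
    ent (mu F m R) = Real.log ((m : ℝ) - R.card) + Real.log (W F R)
      - ∑ x, mu F m R x * Real.log (W F (insert x R)) := by
  have h0 : (R.card : ℝ) < m := by exact_mod_cast hm
  have h2 : (0 : ℝ) < (m : ℝ) - R.card := by linarith
  have key : ∀ x : V, Real.negMulLog (mu F m R x)
      = mu F m R x * (Real.log ((m : ℝ) - R.card) + Real.log (W F R))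
        - mu F m R x * Real.log (W F (insert x R)) := by
    intro x
    by_cases h1 : mu F m R x = 0
    · rw [h1]; simp
    · have h3 : 0 < mu F m R x := lt_of_le_of_ne (mu_nonneg hF R x) (Ne.symm h1)
      obtain ⟨h4, h5⟩ := (mu_pos_iff hm x).1 h3
      have h6 : mu F m R x = W F (insert x R) / (((m : ℝ) - R.card) * W F R) := by
        unfold mu; rw [if_neg h4]
      unfold Real.negMulLog
      have h7 : Real.log (mu F m R x) = Real.log (W F (insert x R))
          - (Real.log ((m : ℝ) - R.card) + Real.log (W F R)) := by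
        rw [h6, Real.log_div (ne_of_gt h5) (by positivity), Real.log_mul (ne_of_gt h2) (ne_of_gt hW)]
      rw [h7]
      ring
  unfold ent
  rw [sum_congr rfl (fun x _ => key x), sum_sub_distrib, ← sum_mul, sum_mu hF hW hm, one_mul]

/-- chain rule: the total entropy -/
theorem sum_h {F : Finset (Finset V)} {m : ℕ} (hF : ∀ S ∈ F, S.card = m) (hne : F.Nonempty) :
    ∑ t ∈ range m, h F m t = Real.log (m.factorial : ℝ) + Real.log (F.card : ℝ) := by
  -- L t = E log W
  have hstep : ∀ t : ℕ, t < m → h F m t = Real.log ((m : ℝ) - t)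
      + (∑ R ∈ powersetCard t univ, pr F m R * Real.log (W F R))
      - ∑ R ∈ powersetCard (t + 1) univ, pr F m R * Real.log (W F R) := by
    intro t ht
    rw [← swap_sum' ht (fun R => Real.log (W F R))]
    have h1 : ∀ R ∈ powersetCard t (univ : Finset V), pr F m R * ent (mu F m R)
        = pr F m R * Real.log ((m : ℝ) - t) + pr F m R * Real.log (W F R)
          - pr F m R * ∑ x, mu F m R x * Real.log (W F (insert x R)) := by
      intro R hR
      rw [mem_powersetCard] at hR
      by_cases hW : W F R = 0
      · unfold pr; rw [hW]; simp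
      · rw [ent_mu hF (by rw [hR.2]; exact ht) ((W_ne_zero_iff F R).1 hW), hR.2]
        ring
    unfold h
    rw [sum_congr rfl h1, sum_sub_distrib, sum_add_distrib, ← sum_mul, sum_pr hF hne t ht.le, one_mul]
  have htel : ∀ k : ℕ, k ≤ m → ∑ t ∈ range k, h F m t
      = (∑ t ∈ range k, Real.log ((m : ℝ) - t))
        + (∑ R ∈ powersetCard 0 univ, pr F m R * Real.log (W F R))
        - ∑ R ∈ powersetCard k univ, pr F m R * Real.log (W F R) := by
    intro k
    induction k with
    | zero => intro _; simp
    | succ k ih =>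
      intro hk
      rw [sum_range_succ, ih (by omega), hstep k (by omega), sum_range_succ]
      ring
  rw [htel m le_rfl]
  have e1 : ∑ R ∈ powersetCard 0 (univ : Finset V), pr F m R * Real.log (W F R)
      = Real.log (F.card : ℝ) := by
    rw [powersetCard_zero, sum_singleton]
    unfold pr W
    have : F.filter (fun S => ∅ ⊆ S) = F := by
      apply filter_true_of_mem; intro S _; exact empty_subset S
    rw [this]
    have h1 : (F.card : ℝ) ≠ 0 := by
      have := hne.card_pos
      positivity
    simp [h1]
  have e2 : ∑ R ∈ powersetCard m (univ : Finset V), pr F m R * Real.log (W F R) = 0 := by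
    apply sum_eq_zero
    intro R hR
    rw [mem_powersetCard] at hR
    by_cases hW : W F R = 0
    · unfold pr; rw [hW]; simp
    · have h1 := (W_ne_zero_iff F R).1 hW
      have h2 : F.filter (fun S => R ⊆ S) = {R} := by
        ext S
        simp only [mem_filter, mem_singleton]
        constructor
        · rintro ⟨h3, h4⟩
          exact (eq_of_subset_of_card_le h4 (by rw [hF S h3, hR.2])).symm
        · rintro rfl
          obtain ⟨S', hS', hRS⟩ := (W_pos_iff F S).1 h1
          have : S = S' := eq_of_subset_of_card_le hRS (by rw [hF S' hS', hR.2])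
          rw [this]
          exact ⟨hS', Subset.refl _⟩
      have h3 : W F R = 1 := by
        unfold W; rw [h2, card_singleton]; norm_num
      rw [h3, Real.log_one, mul_zero]
  rw [e1, e2]
  have e3 : ∀ k : ℕ, k ≤ m → ∑ t ∈ range k, Real.log ((m : ℝ) - t)
      = Real.log (m.factorial : ℝ) - Real.log ((m - k).factorial : ℝ) := by
    intro k
    induction k with
    | zero => intro _; simp
    | succ k ih =>
      intro hk
      rw [sum_range_succ, ih (by omega)]
      obtain ⟨j, rfl⟩ : ∃ j, m = k + 1 + j := ⟨m - (k + 1), by omega⟩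
      have h1 : k + 1 + j - k = j + 1 := by omega
      have h2 : k + 1 + j - (k + 1) = j := by omega
      rw [h1, h2, Nat.factorial_succ]
      push_cast
      have h3 : ((k : ℝ) + 1 + j) - k = (j : ℝ) + 1 := by ring
      rw [h3, Real.log_mul (by positivity) (by positivity)]
      ring
  rw [e3 m le_rfl]
  simp

/-- the entropies are bounded by the logarithm of the number of points -/
theorem ent_le {p : V → ℝ} (hp : ∀ x, 0 ≤ p x) (hs : ∑ x, p x = 1) [Nonempty V] :
    ent p ≤ Real.log (Fintype.card V : ℝ) := by
  have hN : (0 : ℝ) < Fintype.card V := by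
    have := Fintype.card_pos (α := V)
    positivity
  have key : ∀ x : V, Real.negMulLog (p x) ≤ p x * Real.log (Fintype.card V : ℝ)
      + (1 / (Fintype.card V : ℝ) - p x) := by
    intro x
    by_cases h0 : p x = 0
    · rw [h0]; simp
    · have h1 : 0 < p x := lt_of_le_of_ne (hp x) (Ne.symm h0)
      have h2 := Real.log_le_sub_one_of_pos (show (0 : ℝ) < 1 / ((Fintype.card V : ℝ) * p x) by positivity)
      rw [one_div, Real.log_inv, Real.log_mul (ne_of_gt hN) h0] at h2
      have h3 := mul_le_mul_of_nonneg_left h2 h1.le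
      unfold Real.negMulLog
      have h4 : p x * (((Fintype.card V : ℝ) * p x)⁻¹ - 1) = 1 / (Fintype.card V : ℝ) - p x := by
        field_simp
      rw [h4] at h3
      linarith
  unfold ent
  refine (sum_le_sum (fun x _ => key x)).trans (le_of_eq ?_)
  rw [sum_add_distrib, ← sum_mul, hs, one_mul, sum_sub_distrib, hs, sum_const, card_univ,
    nsmul_eq_mul]
  field_simp
  ring

/-- the entropy of the first point -/
theorem h_zero_le {F : Finset (Finset V)} {m : ℕ} (hF : ∀ S ∈ F, S.card = m) (hne : F.Nonempty)
    (hm : 0 < m) [Nonempty V] : h F m 0 ≤ Real.log (Fintype.card V : ℝ) := by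
  unfold h
  rw [powersetCard_zero, sum_singleton]
  have h1 := sum_pr hF hne 0 (by omega)
  rw [powersetCard_zero, sum_singleton] at h1
  rw [h1, one_mul]
  apply ent_le (fun x => mu_nonneg hF _ x)
  apply sum_mu hF
  · rw [W_pos_iff]
    obtain ⟨S, hS⟩ := hne
    exact ⟨S, hS, empty_subset S⟩
  · simpa using hm

end Pool.N3
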