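import Mathlib
import Pool.Agent.Helper77.N3.Step

set_option autoImplicit false
set_option linter.unusedSectionVars false

namespace Pool.N3

open Finset

/-- Fenchel type inequality -/
lemma phi_ge {a b s : ℝ} (ha : 0 ≤ a) (hb : 0 ≤ b) (hab : b = 0 → a = 0) :
    (1 - Real.exp (-s)) * b - s * a ≤ phi a b := by
  unfold phi
  by_cases h0 : a = 0
  · rw [h0]
    simp only [zero_div, Real.log_zero, mul_zero, sub_zero, zero_add]
    have : 0 < Real.exp (-s) := Real.exp_pos _
    nlinarith
  · have ha' : 0 < a := lt_of_le_of_ne ha (Ne.symm h0)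
    have hb' : 0 < b := lt_of_le_of_ne hb (fun h => h0 (hab h.symm))
    have h1 := Real.log_le_sub_one_of_pos (show (0 : ℝ) < b * Real.exp (-s) / a by positivity)
    rw [Real.log_div (by positivity) (ne_of_gt ha'), Real.log_mul (ne_of_gt hb') (by positivity),
      Real.log_exp] at h1
    rw [Real.log_div (ne_of_gt ha') (ne_of_gt hb')]
    have h2 := mul_le_mul_of_nonneg_left h1 ha
    have h3 : a * (b * Real.exp (-s) / a - 1) = b * Real.exp (-s) - a := by
      field_simp
    rw [h3] at h2
    nlinarith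

lemma phi_nonneg {a b : ℝ} (ha : 0 ≤ a) (hb : 0 ≤ b) (hab : b = 0 → a = 0) :
    0 ≤ phi a b := by
  have := phi_ge (s := 0) ha hb hab
  simpa using this

/-- large ratio -/
lemma phi_ge_of_large {a b : ℝ} (hb : 0 ≤ b) (hab : b = 0 → a = 0)
    (h : 3 * b < a) : b ≤ phi a b := by
  have ha : 0 < a := by linarith
  have hb' : 0 < b := lt_of_le_of_ne hb (fun h => (ne_of_gt ha) (hab h.symm))
  unfold phi
  have h1 : 1 ≤ Real.log (a / b) := by
    rw [Real.le_log_iff_exp_le (by positivity)]
    have h2 : Real.exp 1 < 3 := Real.exp_one_lt_three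
    have h3 : 3 < a / b := by rw [lt_div_iff₀ hb']; exact h
    linarith
  nlinarith

variable {V : Type*} [Fintype V] [DecidableEq V] {ι : Type*} [DecidableEq ι]

/-- mass of pairs of different points on a common labelled line through `r` -/
noncomputable def Psi (T : Finset ι) (L : ι → V → ℤ) (r : V) (ν : V → ℝ) : ℝ :=
  ∑ θ ∈ T, ∑ x, ∑ y, if x ≠ y ∧ L θ x = L θ r ∧ L θ y = L θ r then ν x * ν y else 0

lemma Psi_nonneg (T : Finset ι) (L : ι → V → ℤ) (r : V) {ν : V → ℝ} (hν : ∀ x, 0 ≤ ν x) :
    0 ≤ Psi T L r ν := by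
  unfold Psi
  refine sum_nonneg (fun θ _ => sum_nonneg (fun x _ => sum_nonneg (fun y _ => ?_)))
  split_ifs
  · exact mul_nonneg (hν x) (hν y)
  · exact le_rfl

/-- for one `r`: lower bound of `Psi` by restricting to a set of good pairs -/
lemma Psi_ge (T : Finset ι) (L : ι → V → ℤ) (r : V) {ν : V → ℝ} (hν : ∀ x, 0 ≤ ν x)
    (G : ι → V → Prop) [∀ θ x, Decidable (G θ x)]
    (hG : ∀ θ ∈ T, ∀ x, G θ x → L θ x = L θ r) (y c : ℝ)
    (hc : ∀ θ ∈ T, ∀ x, G θ x → ν x ≤ c) :
    (2 * y - c) * (∑ θ ∈ T, ∑ x, if G θ x then ν x else 0) - T.card * y ^ 2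
      ≤ Psi T L r ν := by
  have h1 : ∀ θ ∈ T, (2 * y - c) * (∑ x, if G θ x then ν x else 0) - y ^ 2
      ≤ ∑ x, ∑ y, if x ≠ y ∧ L θ x = L θ r ∧ L θ y = L θ r then ν x * ν y else 0 := by
    intro θ hθ
    set q : V → ℝ := fun x => if G θ x then ν x else 0 with hq
    have hq0 : ∀ x, 0 ≤ q x := by
      intro x; simp only [hq]; split_ifs
      · exact hν x
      · exact le_rfl
    have hqc : ∀ x, q x * q x ≤ c * q x := by
      intro x; simp only [hq]; split_ifs with hx
      · exact mul_le_mul_of_nonneg_right (hc θ hθ x hx) (hν x)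
      · simp
    have h2 : ∀ x y, q x * q y - (if x = y then q x * q x else 0)
        ≤ if x ≠ y ∧ L θ x = L θ r ∧ L θ y = L θ r then ν x * ν y else 0 := by
      intro x y
      by_cases hxy : x = y
      · subst hxy
        simp
      · rw [if_neg hxy, sub_zero]
        by_cases hx : G θ x
        · by_cases hy : G θ y
          · rw [if_pos ⟨hxy, hG θ hθ x hx, hG θ hθ y hy⟩]
            simp only [hq, if_pos hx, if_pos hy]; exact le_rfl
          · simp only [hq, if_neg hy, mul_zero]
            split_ifs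
            · exact mul_nonneg (hν x) (hν y)
            · exact le_rfl
        · simp only [hq, if_neg hx, zero_mul]
          split_ifs
          · exact mul_nonneg (hν x) (hν y)
          · exact le_rfl
    have h3 : (∑ x, q x) ^ 2 - c * (∑ x, q x)
        ≤ ∑ x, ∑ y, if x ≠ y ∧ L θ x = L θ r ∧ L θ y = L θ r then ν x * ν y else 0 := by
      refine le_trans ?_ (sum_le_sum (fun x _ => sum_le_sum (fun y _ => h2 x y)))
      have e1 : ∑ x, ∑ y, (q x * q y - (if x = y then q x * q x else 0))
          = (∑ x, q x) ^ 2 - ∑ x, q x * q x := by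
        simp only [sum_sub_distrib, sum_ite_eq, mem_univ, if_true]
        rw [← sum_mul_sum, pow_two]
      rw [e1]
      have e2 : ∑ x, q x * q x ≤ c * ∑ x, q x := by
        rw [mul_sum]
        exact sum_le_sum (fun x _ => hqc x)
      linarith
    have h4 : 2 * y * (∑ x, q x) - y ^ 2 ≤ (∑ x, q x) ^ 2 := by
      nlinarith [sq_nonneg ((∑ x, q x) - y)]
    have h5 : (2 * y - c) * (∑ x, q x) - y ^ 2 ≤ (∑ x, q x) ^ 2 - c * (∑ x, q x) := by
      linarith
    exact h5.trans h3
  unfold Psi
  refine le_trans (le_of_eq ?_) (sum_le_sum h1)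
  rw [sum_sub_distrib, ← mul_sum, sum_const, nsmul_eq_mul]

/-- lower bound for the product measure of the pairs on a common line -/
lemma prod_line_ge (T : Finset ι) (L : ι → V → ℤ) {μ : V → ℝ} (hμ : ∀ x, 0 ≤ μ x)
    (hs : ∑ x, μ x ≤ 1) (K b : ℝ) (hK : 0 < K) (hb : 0 ≤ b)
    (hL : ∀ θ ∈ T, ((univ.image (L θ)).card : ℝ) ≤ K) :
    (T.card : ℝ) * ((∑ x, if μ x ≤ b then μ x else 0) ^ 2 / K - b)
      ≤ ∑ θ ∈ T, ∑ r, ∑ x, if (r ≠ x ∧ L θ x = L θ r) ∧ μ r ≤ b ∧ μ x ≤ b then μ r * μ x else 0 := by
  have h1 : ∀ θ ∈ T, (∑ x, if μ x ≤ b then μ x else 0) ^ 2 / K - b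
      ≤ ∑ r, ∑ x, if (r ≠ x ∧ L θ x = L θ r) ∧ μ r ≤ b ∧ μ x ≤ b then μ r * μ x else 0 := by
    intro θ hθ
    set q : V → ℝ := fun x => if μ x ≤ b then μ x else 0 with hq
    have hq0 : ∀ x, 0 ≤ q x := by
      intro x; simp only [hq]; split_ifs
      · exact hμ x
      · exact le_rfl
    have hqb : ∀ x, q x * q x ≤ b * μ x := by
      intro x; simp only [hq]; split_ifs with hx
      · exact mul_le_mul_of_nonneg_right hx (hμ x)
      · simp only [mul_zero]; exact mul_nonneg hb (hμ x)
    have h2 : ∀ r x, (if L θ x = L θ r then q r * q x else 0) - (if r = x then q r * q r else 0)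
        ≤ if (r ≠ x ∧ L θ x = L θ r) ∧ μ r ≤ b ∧ μ x ≤ b then μ r * μ x else 0 := by
      intro r x
      by_cases hxy : r = x
      · subst hxy
        simp
      · rw [if_neg hxy, sub_zero]
        by_cases hl : L θ x = L θ r
        · rw [if_pos hl]
          by_cases hx : μ x ≤ b
          · by_cases hr : μ r ≤ b
            · rw [if_pos ⟨⟨hxy, hl⟩, hr, hx⟩]
              simp only [hq, if_pos hx, if_pos hr]; exact le_rfl
            · simp only [hq, if_neg hr, zero_mul]
              rw [if_neg (fun h => hr h.2.1)]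
          · simp only [hq, if_neg hx, mul_zero]
            rw [if_neg (fun h => hx h.2.2)]
        · rw [if_neg hl, if_neg (fun h => hl h.1.2)]
    refine le_trans ?_ (sum_le_sum (fun x _ => sum_le_sum (fun y _ => h2 x y)))
    simp only [sum_sub_distrib, sum_ite_eq, mem_univ, if_true]
    have e2 : ∑ x, q x * q x ≤ b := by
      refine (sum_le_sum (fun x _ => hqb x)).trans ?_
      rw [← mul_sum]
      nlinarith
    have e3 : (∑ x, q x) ^ 2 / K ≤ ∑ r, ∑ x, if L θ x = L θ r then q r * q x else 0 := by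
      have f1 : ∑ r, ∑ x, (if L θ x = L θ r then q r * q x else 0)
          = ∑ l ∈ univ.image (L θ), (∑ x ∈ univ.filter (fun x => L θ x = l), q x) ^ 2 := by
        have f2 : ∀ l ∈ univ.image (L θ), (∑ x ∈ univ.filter (fun x => L θ x = l), q x) ^ 2
            = ∑ r ∈ univ.filter (fun r => L θ r = l), ∑ x, if L θ x = L θ r then q r * q x else 0 := by
          intro l _
          rw [pow_two, sum_mul_sum]
          apply sum_congr rfl
          intro r hr
          rw [mem_filter] at hr
          rw [← sum_filter, hr.2]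
        rw [sum_congr rfl f2]
        symm
        apply sum_fiberwise_of_maps_to
        intro x _
        exact mem_image_of_mem _ (mem_univ x)
      have f3 : ∑ x, q x = ∑ l ∈ univ.image (L θ), ∑ x ∈ univ.filter (fun x => L θ x = l), q x := by
        symm
        apply sum_fiberwise_of_maps_to
        intro x _
        exact mem_image_of_mem _ (mem_univ x)
      rw [f1, div_le_iff₀ hK]
      have f4 := sq_sum_le_card_mul_sum_sq (s := univ.image (L θ))
        (f := fun l => ∑ x ∈ univ.filter (fun x => L θ x = l), q x)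
      rw [← f3] at f4
      refine f4.trans ?_
      rw [mul_comm]
      apply mul_le_mul_of_nonneg_left (hL θ hθ)
      exact sum_nonneg (fun l _ => sq_nonneg _)
    linarith
  refine le_trans (le_of_eq ?_) (sum_le_sum h1)
  rw [sum_const, nsmul_eq_mul]

end Pool.N3
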