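import Mathlib

set_option autoImplicit false

/-!
`∑_{N ≤ y} φ(N)/N² = (6/π²) log y + O(1)`, without Möbius inversion.
-/

namespace Pool.N3

open Finset

/-- weighted totient sum -/
noncomputable def St (y : ℕ) : ℝ := ∑ N ∈ Icc 1 y, (Nat.totient N : ℝ) / (N : ℝ) ^ 2

lemma St_zero : St 0 = 0 := by simp [St]

lemma St_succ (y : ℕ) : St (y + 1) = St y + (Nat.totient (y + 1) : ℝ) / ((y : ℝ) + 1) ^ 2 := by
  unfold St
  rw [sum_Icc_succ_top (by omega)]
  push_cast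
  rfl

lemma St_nonneg (y : ℕ) : 0 ≤ St y := by
  unfold St; positivity

lemma harm_eq (y : ℕ) :
    ∑ N ∈ Icc 1 y, (1 : ℝ) / N = ∑ k ∈ Icc 1 y, 1 / (k : ℝ) ^ 2 * St (y / k) := by
  induction y with
  | zero => simp
  | succ y ih =>
    have h1 : ∀ k ∈ Icc 1 (y + 1), 1 / (k : ℝ) ^ 2 * St ((y + 1) / k)
        = 1 / (k : ℝ) ^ 2 * St (y / k)
          + (if k ∣ y + 1 then (Nat.totient ((y + 1) / k) : ℝ) / ((y : ℝ) + 1) ^ 2 else 0) := by
      intro k hk
      rw [mem_Icc] at hk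
      have hk0 : (k : ℝ) ≠ 0 := by
        have : 0 < k := by omega
        positivity
      by_cases hd : k ∣ y + 1
      · rw [if_pos hd]
        obtain ⟨q, hq⟩ := hd
        have hq1 : 1 ≤ q := by
          rcases Nat.eq_zero_or_pos q with h | h
          · subst h; omega
          · exact h
        have e1 : (y + 1) / k = q := by rw [hq]; exact Nat.mul_div_cancel_left q (by omega)
        have e2 : y / k = q - 1 := by
          have := Nat.succ_div (a := y) (b := k)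
          rw [if_pos ⟨q, hq⟩] at this
          omega
        obtain ⟨p, rfl⟩ : ∃ p, q = p + 1 := ⟨q - 1, by omega⟩
        rw [e1, e2, Nat.add_sub_cancel, St_succ]
        have e3 : ((y : ℝ) + 1) = k * ((p : ℝ) + 1) := by
          have : ((y + 1 : ℕ) : ℝ) = ((k * (p + 1) : ℕ) : ℝ) := by rw [hq]
          push_cast at this
          exact this
        rw [e3]
        have hp0 : ((p : ℝ) + 1) ≠ 0 := by positivity
        field_simp
      · rw [if_neg hd, add_zero]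
        have := Nat.succ_div (a := y) (b := k)
        rw [if_neg hd] at this
        rw [this, add_zero]
    rw [sum_congr rfl h1, sum_add_distrib, sum_Icc_succ_top (by omega),
      sum_Icc_succ_top (f := fun k : ℕ => 1 / (k : ℝ) ^ 2 * St (y / k)) (by omega), ← ih]
    have h2 : y / (y + 1) = 0 := Nat.div_eq_of_lt (by omega)
    rw [h2, St_zero, mul_zero, add_zero]
    congr 1
    rw [← sum_filter]
    have h3 : (Icc 1 (y + 1)).filter (fun d => d ∣ y + 1) = (y + 1).divisors := by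
      ext d
      simp only [mem_filter, mem_Icc, Nat.mem_divisors]
      constructor
      · rintro ⟨-, h⟩; exact ⟨h, by omega⟩
      · rintro ⟨h, -⟩
        exact ⟨⟨Nat.pos_of_dvd_of_pos h (by omega), Nat.le_of_dvd (by omega) h⟩, h⟩
    rw [h3, ← sum_div]
    have h4 : ∑ d ∈ (y + 1).divisors, (Nat.totient ((y + 1) / d) : ℝ) = ((y : ℝ) + 1) := by
      rw [Nat.sum_div_divisors (y + 1) (fun d => (Nat.totient d : ℝ))]
      have := Nat.sum_totient (y + 1)
      have h5 : ((∑ d ∈ (y + 1).divisors, Nat.totient d : ℕ) : ℝ) = ((y + 1 : ℕ) : ℝ) := by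
        rw [this]
      push_cast at h5
      exact h5
    rw [h4]
    push_cast
    have : ((y : ℝ) + 1) ≠ 0 := by positivity
    field_simp

lemma harm_ge (y : ℕ) (hy : 1 ≤ y) : Real.log y ≤ ∑ N ∈ Icc 1 y, (1 : ℝ) / N := by
  have h1 := log_add_one_le_harmonic y
  have h2 : Real.log y ≤ Real.log ((y : ℝ) + 1) :=
    Real.log_le_log (by exact_mod_cast hy) (by linarith)
  have h3 : ((harmonic y : ℚ) : ℝ) = ∑ N ∈ Icc 1 y, (1 : ℝ) / N := by
    rw [harmonic_eq_sum_Icc]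
    push_cast
    apply sum_congr rfl
    intro N _
    rw [one_div]
  rw [← h3]
  push_cast at h1
  linarith

lemma harm_le (y : ℕ) : ∑ N ∈ Icc 1 y, (1 : ℝ) / N ≤ 1 + Real.log y := by
  have h1 := harmonic_le_one_add_log y
  have h3 : ((harmonic y : ℚ) : ℝ) = ∑ N ∈ Icc 1 y, (1 : ℝ) / N := by
    rw [harmonic_eq_sum_Icc]
    push_cast
    apply sum_congr rfl
    intro N _
    rw [one_div]
  rw [← h3]
  exact h1

lemma sum_sq_inv_le (y : ℕ) : ∑ k ∈ Icc 1 y, 1 / (k : ℝ) ^ 2 ≤ Real.pi ^ 2 / 6 := by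
  have h1 : HasSum (fun n : ℕ => (1 : ℝ) / (n : ℝ) ^ 2) (Real.pi ^ 2 / 6) := hasSum_zeta_two
  exact sum_le_hasSum _ (fun n _ => by positivity) h1

lemma sum_sq_inv_ge (y : ℕ) (hy : 1 ≤ y) :
    Real.pi ^ 2 / 6 - 1 / y ≤ ∑ k ∈ Icc 1 y, 1 / (k : ℝ) ^ 2 := by
  have h1 : HasSum (fun n : ℕ => (1 : ℝ) / (n : ℝ) ^ 2) (Real.pi ^ 2 / 6) := hasSum_zeta_two
  have h2 := h1.tendsto_sum_nat
  have h3 : ∀ᶠ M : ℕ in Filter.atTop, ∑ k ∈ range M, (1 : ℝ) / (k : ℝ) ^ 2
      ≤ ∑ k ∈ Icc 1 y, (1 : ℝ) / (k : ℝ) ^ 2 + (1 : ℝ) / (y : ℝ) := by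
    filter_upwards [Filter.eventually_ge_atTop (y + 1)] with M hM
    have h4 : ∑ k ∈ range M, (1 : ℝ) / (k : ℝ) ^ 2
        = ∑ k ∈ Icc 1 y, (1 : ℝ) / (k : ℝ) ^ 2 + ∑ k ∈ Ioc y (M - 1), (1 : ℝ) / (k : ℝ) ^ 2 := by
      rw [← sum_union]
      · have h5 : range M = insert 0 (Icc 1 y ∪ Ioc y (M - 1)) := by
          ext k; simp only [mem_range, mem_insert, mem_union, mem_Icc, mem_Ioc]; omega
        rw [h5, sum_insert (by simp)]
        simp
      · rw [disjoint_left]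
        intro k hk hk'
        rw [mem_Icc] at hk; rw [mem_Ioc] at hk'; omega
    rw [h4]
    have h6 := sum_Ioc_inv_sq_le_sub (α := ℝ) (k := y) (n := M - 1) (by omega) (by omega)
    have h7 : ∑ k ∈ Ioc y (M - 1), (1 : ℝ) / (k : ℝ) ^ 2 ≤ (1 : ℝ) / (y : ℝ) := by
      have h8 : ∑ k ∈ Ioc y (M - 1), 1 / (k : ℝ) ^ 2
          = ∑ i ∈ Ioc y (M - 1), ((i : ℝ) ^ 2)⁻¹ := by
        apply sum_congr rfl; intro i _; rw [one_div]
      rw [h8, one_div]
      have : (0 : ℝ) ≤ ((M - 1 : ℕ) : ℝ)⁻¹ := by positivity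
      linarith
    linarith
  have h5 := le_of_tendsto h2 h3
  linarith

lemma exists_log_bound : ∃ C : ℝ, 0 ≤ C ∧ ∀ y : ℕ,
    ∑ k ∈ Icc 1 y, Real.log k / (k : ℝ) ^ 2 ≤ C := by
  have hsum : Summable (fun n : ℕ => 2 * (1 / (n : ℝ) ^ (3 / 2 : ℝ))) :=
    (Real.summable_one_div_nat_rpow.2 (by norm_num)).mul_left 2
  refine ⟨∑' n : ℕ, 2 * (1 / (n : ℝ) ^ (3 / 2 : ℝ)), tsum_nonneg (fun n => by positivity), ?_⟩
  intro y
  refine le_trans (sum_le_sum ?_) (hsum.sum_le_tsum (Icc 1 y) (fun n _ => by positivity))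
  intro k hk
  rw [mem_Icc] at hk
  have hk0 : (0 : ℝ) < k := by exact_mod_cast hk.1
  have h1 := Real.log_le_rpow_div hk0.le (show (0 : ℝ) < 1 / 2 by norm_num)
  rw [div_le_iff₀ (by positivity)]
  have h2 : 2 * (1 / (k : ℝ) ^ (3 / 2 : ℝ)) * (k : ℝ) ^ 2 = 2 * (k : ℝ) ^ (1 / 2 : ℝ) := by
    have h3 : (k : ℝ) ^ 2 = (k : ℝ) ^ (3 / 2 : ℝ) * (k : ℝ) ^ (1 / 2 : ℝ) := by
      rw [← Real.rpow_add hk0]; norm_num
    rw [h3]
    field_simp
  rw [h2]
  linarith

lemma log_div_bounds {y k : ℕ} (hk : 1 ≤ k) (hky : k ≤ y) :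
    Real.log y - Real.log k - Real.log 2 ≤ Real.log ((y / k : ℕ) : ℝ) ∧
    Real.log ((y / k : ℕ) : ℝ) ≤ Real.log y - Real.log k := by
  have hk0 : (0 : ℝ) < k := by exact_mod_cast hk
  have hy0 : (0 : ℝ) < y := by exact_mod_cast (by omega : 0 < y)
  have h1 : 1 ≤ y / k := (Nat.one_le_div_iff (by omega)).2 hky
  have h1' : (0 : ℝ) < ((y / k : ℕ) : ℝ) := by exact_mod_cast h1
  have h2 : ((y / k : ℕ) : ℝ) * k ≤ y := by exact_mod_cast Nat.div_mul_le_self y k
  have h3 : (y : ℝ) ≤ 2 * ((y / k : ℕ) : ℝ) * k := by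
    have h4 : y < (y / k) * k + k := Nat.lt_div_mul_add (by omega)
    have h5 : y ≤ 2 * (y / k) * k := by nlinarith
    exact_mod_cast h5
  constructor
  · have h6 := Real.log_le_log hy0 h3
    rw [Real.log_mul (by positivity) (by positivity), Real.log_mul (by norm_num) (by positivity)] at h6
    linarith
  · have h6 := Real.log_le_log (by positivity) h2
    rw [Real.log_mul (by positivity) (by positivity)] at h6
    linarith

/-- the asymptotic formula -/
theorem St_bound : ∃ C : ℝ, 0 ≤ C ∧ ∀ y : ℕ, 1 ≤ y →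
    |St y - 6 / Real.pi ^ 2 * Real.log y| ≤ C := by
  obtain ⟨CL, hCL0, hCL⟩ := exists_log_bound
  have hpi := Real.pi_gt_three
  set α : ℝ := 6 / Real.pi ^ 2 with hα
  have hα0 : 0 < α := by positivity
  have hα1 : α ≤ 1 := by
    rw [hα, div_le_one (by positivity)]; nlinarith
  have hαz : α * (Real.pi ^ 2 / 6) = 1 := by
    rw [hα]; field_simp
  have hpi2 : Real.pi ^ 2 / 6 ≤ 2 := by
    have := Real.pi_lt_d2; nlinarith
  set C1 : ℝ := CL + 4 with hC1
  have hA : ∀ y : ℕ, 1 ≤ y → |∑ N ∈ Icc 1 y, (1 : ℝ) / N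
      - α * ∑ k ∈ Icc 1 y, 1 / (k : ℝ) ^ 2 * Real.log ((y / k : ℕ) : ℝ)| ≤ C1 := by
    intro y hy
    have hy0 : (1 : ℝ) ≤ y := by exact_mod_cast hy
    have hly : 0 ≤ Real.log (y : ℝ) := Real.log_nonneg hy0
    have hlyy : Real.log y * (1 / y) ≤ 1 := by
      rw [mul_one_div, div_le_one (by linarith)]
      have := Real.log_le_sub_one_of_pos (show (0 : ℝ) < y by linarith)
      linarith
    have hup : ∑ k ∈ Icc 1 y, 1 / (k : ℝ) ^ 2 * Real.log ((y / k : ℕ) : ℝ)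
        ≤ Real.log y * (Real.pi ^ 2 / 6) := by
      have h1 : ∑ k ∈ Icc 1 y, 1 / (k : ℝ) ^ 2 * Real.log ((y / k : ℕ) : ℝ)
          ≤ ∑ k ∈ Icc 1 y, 1 / (k : ℝ) ^ 2 * Real.log y := by
        apply sum_le_sum
        intro k hk
        rw [mem_Icc] at hk
        apply mul_le_mul_of_nonneg_left _ (by positivity)
        have := (log_div_bounds hk.1 hk.2).2
        have h2 : 0 ≤ Real.log (k : ℝ) := Real.log_nonneg (by exact_mod_cast hk.1)
        linarith
      rw [← sum_mul] at h1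
      have h2 := mul_le_mul_of_nonneg_right (sum_sq_inv_le y) hly
      linarith
    have hlow : Real.log y * (Real.pi ^ 2 / 6) - 1 - CL - 2
        ≤ ∑ k ∈ Icc 1 y, 1 / (k : ℝ) ^ 2 * Real.log ((y / k : ℕ) : ℝ) := by
      have h1 : ∑ k ∈ Icc 1 y, (1 / (k : ℝ) ^ 2 * (Real.log y - Real.log 2)
            - Real.log k / (k : ℝ) ^ 2)
          ≤ ∑ k ∈ Icc 1 y, 1 / (k : ℝ) ^ 2 * Real.log ((y / k : ℕ) : ℝ) := by
        apply sum_le_sum
        intro k hk
        rw [mem_Icc] at hk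
        have h2 := (log_div_bounds hk.1 hk.2).1
        have h3 : 1 / (k : ℝ) ^ 2 * (Real.log y - Real.log k - Real.log 2)
            ≤ 1 / (k : ℝ) ^ 2 * Real.log ((y / k : ℕ) : ℝ) :=
          mul_le_mul_of_nonneg_left h2 (by positivity)
        refine le_trans (le_of_eq ?_) h3
        ring
      rw [sum_sub_distrib, ← sum_mul, mul_sub] at h1
      have h4 := sum_sq_inv_ge y hy
      have h5 := sum_sq_inv_le y
      have h6 := hCL y
      have h7 := mul_le_mul_of_nonneg_left h4 hly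
      have h8 : (∑ k ∈ Icc 1 y, 1 / (k : ℝ) ^ 2) * Real.log 2 ≤ 2 := by
        have h9 : Real.log 2 ≤ 1 := by have := Real.log_two_lt_d9; linarith
        have h10 : 0 ≤ Real.log 2 := (Real.log_pos (by norm_num)).le
        have h11 : 0 ≤ ∑ k ∈ Icc 1 y, 1 / (k : ℝ) ^ 2 := by positivity
        nlinarith
      nlinarith
    have h1 := harm_ge y hy
    have h2 := harm_le y
    rw [abs_le]
    constructor
    · have h3 := mul_le_mul_of_nonneg_left hup hα0.le
      have h4 : α * (Real.log y * (Real.pi ^ 2 / 6)) = Real.log y := by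
        rw [mul_comm (Real.log (y : ℝ)), ← mul_assoc, hαz, one_mul]
      linarith
    · have h3 := mul_le_mul_of_nonneg_left hlow hα0.le
      have h4 : α * (Real.log y * (Real.pi ^ 2 / 6) - 1 - CL - 2)
          = Real.log y - α * (3 + CL) := by
        have : α * (Real.log y * (Real.pi ^ 2 / 6)) = Real.log y := by
          rw [mul_comm (Real.log (y : ℝ)), ← mul_assoc, hαz, one_mul]
        linear_combination this
      rw [h4] at h3
      have h5 : α * (3 + CL) ≤ 3 + CL := by nlinarith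
      linarith
  have hq : ∀ y : ℕ, ∑ k ∈ Icc 2 y, 1 / (k : ℝ) ^ 2 ≤ 3 / 4 := by
    intro y
    rcases le_or_gt 2 y with h | h
    · have h1 : Icc 2 y = insert 2 (Ioc 2 y) := by
        ext k; simp only [mem_insert, mem_Icc, mem_Ioc]; omega
      rw [h1, sum_insert (by simp)]
      have h2 := sum_Ioc_inv_sq_le_sub (α := ℝ) (k := 2) (n := y) (by omega) h
      have h3 : ∑ k ∈ Ioc 2 y, 1 / (k : ℝ) ^ 2 = ∑ i ∈ Ioc 2 y, ((i : ℝ) ^ 2)⁻¹ := by
        apply sum_congr rfl; intro i _; rw [one_div]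
      rw [h3]
      have : (0 : ℝ) ≤ ((y : ℕ) : ℝ)⁻¹ := by positivity
      push_cast at h2 ⊢
      norm_num at h2 ⊢
      linarith
    · rw [Icc_eq_empty (by omega)]; norm_num
  refine ⟨4 * C1, by positivity, ?_⟩
  intro y
  induction y using Nat.strong_induction_on with
  | _ y ih =>
    intro hy
    have h1 := harm_eq y
    have h2 := hA y hy
    have h3 : ∑ k ∈ Icc 1 y, 1 / (k : ℝ) ^ 2 * St (y / k)
        = α * (∑ k ∈ Icc 1 y, 1 / (k : ℝ) ^ 2 * Real.log ((y / k : ℕ) : ℝ))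
          + ∑ k ∈ Icc 1 y, 1 / (k : ℝ) ^ 2 * (St (y / k) - α * Real.log ((y / k : ℕ) : ℝ)) := by
      rw [mul_sum, ← sum_add_distrib]
      apply sum_congr rfl
      intro k _
      ring
    have h4 : ∑ k ∈ Icc 1 y, 1 / (k : ℝ) ^ 2 * (St (y / k) - α * Real.log ((y / k : ℕ) : ℝ))
        = (St y - α * Real.log y)
          + ∑ k ∈ Icc 2 y, 1 / (k : ℝ) ^ 2 * (St (y / k) - α * Real.log ((y / k : ℕ) : ℝ)) := by
      have h5 : Icc 1 y = insert 1 (Icc 2 y) := by
        ext k; simp only [mem_insert, mem_Icc]; omega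
      rw [h5, sum_insert (by simp)]
      simp
    have h6 : |∑ k ∈ Icc 2 y, 1 / (k : ℝ) ^ 2 * (St (y / k) - α * Real.log ((y / k : ℕ) : ℝ))|
        ≤ 3 * C1 := by
      have h7 : |∑ k ∈ Icc 2 y, 1 / (k : ℝ) ^ 2 * (St (y / k) - α * Real.log ((y / k : ℕ) : ℝ))|
          ≤ ∑ k ∈ Icc 2 y, 1 / (k : ℝ) ^ 2 * (4 * C1) := by
        refine (abs_sum_le_sum_abs _ _).trans (sum_le_sum ?_)
        intro k hk
        rw [mem_Icc] at hk
        rw [abs_mul, abs_of_nonneg (show (0 : ℝ) ≤ 1 / (k : ℝ) ^ 2 by positivity)]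
        apply mul_le_mul_of_nonneg_left _ (by positivity)
        apply ih (y / k) (Nat.div_lt_self (by omega) (by omega))
        exact (Nat.one_le_div_iff (by omega)).2 hk.2
      rw [← sum_mul] at h7
      have h8 := mul_le_mul_of_nonneg_right (hq y) (show (0 : ℝ) ≤ 4 * C1 by positivity)
      linarith
    rw [h1, h3, h4] at h2
    have h9 : St y - α * Real.log y
        = (α * (∑ k ∈ Icc 1 y, 1 / (k : ℝ) ^ 2 * Real.log ((y / k : ℕ) : ℝ))
          + (St y - α * Real.log y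
            + ∑ k ∈ Icc 2 y, 1 / (k : ℝ) ^ 2 * (St (y / k) - α * Real.log ((y / k : ℕ) : ℝ)))
          - α * ∑ k ∈ Icc 1 y, 1 / (k : ℝ) ^ 2 * Real.log ((y / k : ℕ) : ℝ))
          - ∑ k ∈ Icc 2 y, 1 / (k : ℝ) ^ 2 * (St (y / k) - α * Real.log ((y / k : ℕ) : ℝ)) := by
      ring
    rw [h9]
    refine (abs_sub _ _).trans ?_
    linarith

end Pool.N3
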