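import Mathlib
import Pool.Agent.Helper77.N3.Block

set_option autoImplicit false
set_option linter.unusedSectionVars false

namespace Pool.N3

open Finset

variable {V : Type*} [Fintype V] [DecidableEq V] {ι : Type*} [DecidableEq ι]

/-- one direction, one base point -/
lemma Psi1_ge (l : V → ℤ) (r : V) {ν : V → ℝ} (hν : ∀ x, 0 ≤ ν x)
    (G : V → Prop) [DecidablePred G]
    (hG : ∀ x, G x → l x = l r) (y c : ℝ) (hc : ∀ x, G x → ν x ≤ c) :
    (2 * y - c) * (∑ x, if G x then ν x else 0) - y ^ 2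
      ≤ ∑ x, ∑ y, if x ≠ y ∧ l x = l r ∧ l y = l r then ν x * ν y else 0 := by
  have h := Psi_ge ({()} : Finset Unit) (fun _ => l) r hν (fun _ x => G x)
    (fun _ _ x hx => hG x hx) y c (fun _ _ x hx => hc x hx)
  unfold Psi at h
  simpa using h

/-- one direction, product measure -/
lemma prod1_ge (l : V → ℤ) {μ : V → ℝ} (hμ : ∀ x, 0 ≤ μ x)
    (hs : ∑ x, μ x ≤ 1) (K b : ℝ) (hK : 0 < K) (hb : 0 ≤ b)
    (hL : ((univ.image l).card : ℝ) ≤ K) :
    (∑ x, if μ x ≤ b then μ x else 0) ^ 2 / K - b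
      ≤ ∑ r, ∑ x, if (r ≠ x ∧ l x = l r) ∧ μ r ≤ b ∧ μ x ≤ b then μ r * μ x else 0 := by
  have h := prod_line_ge ({()} : Finset Unit) (fun _ => l) hμ hs K b hK hb (fun _ _ => hL)
  simpa using h

lemma one_sub_exp_ge {s : ℝ} (hs0 : 0 < s) : (1 - s) * s ≤ 1 - Real.exp (-s) := by
  have h1 : 1 + s ≤ Real.exp s := by linarith [Real.add_one_le_exp s]
  have h2 : Real.exp (-s) = 1 / Real.exp s := by
    rw [Real.exp_neg, one_div]
  have h3 : Real.exp (-s) ≤ 1 / (1 + s) := by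
    rw [h2]
    exact one_div_le_one_div_of_le (by linarith) h1
  have h4 : 1 / (1 + s) ≤ 1 - (1 - s) * s := by
    rw [div_le_iff₀ (by linarith)]
    nlinarith [pow_pos hs0 3]
  linarith

lemma alg_ineq {a s η β : ℝ} (ha0 : 0 ≤ a) (ha1 : a ≤ 1) (hs0 : 0 ≤ s) (hs1 : s ≤ 1)
    (hη : 0 ≤ η) (hβ0 : 0 ≤ β) (hβ1 : β ≤ 1) :
    3 * β ^ 2 * a - 2 * β ^ 3 - 2 * s - 2 * η
      ≤ (2 * β - η) * ((1 - s) * (a ^ 2 - η / 3)) - β ^ 2 * a := by
  have t1 : 3 * β ^ 2 * a - 2 * β ^ 3 ≤ 2 * β * a ^ 2 - β ^ 2 * a := by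
    nlinarith [mul_nonneg hβ0 (sq_nonneg (a - β))]
  have ha2 : a ^ 2 ≤ 1 := by nlinarith
  have ha3 : 0 ≤ a ^ 2 := sq_nonneg a
  have u1 : (2 * β - η) * ((1 - s) * (a ^ 2 - η / 3))
      = 2 * β * a ^ 2 - 2 * β * s * a ^ 2 - η * (1 - s) * a ^ 2
        - (2 * β - η) * (1 - s) * (η / 3) := by ring
  have u2 : 2 * β * s * a ^ 2 ≤ 2 * s := by
    have : β * a ^ 2 ≤ 1 := by
      calc β * a ^ 2 ≤ 1 * 1 := mul_le_mul hβ1 ha2 ha3 (by norm_num)
        _ = 1 := by norm_num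
    nlinarith
  have u3 : η * (1 - s) * a ^ 2 ≤ η := by
    have : (1 - s) * a ^ 2 ≤ 1 := by
      calc (1 - s) * a ^ 2 ≤ 1 * 1 := mul_le_mul (by linarith) ha2 ha3 (by norm_num)
        _ = 1 := by norm_num
    nlinarith
  have u4 : (2 * β - η) * (1 - s) * (η / 3) ≤ 2 * (η / 3) := by
    have v3 : (2 * β - η) * (1 - s) ≤ 2 := by
      calc (2 * β - η) * (1 - s) ≤ 2 * 1 :=
            mul_le_mul (by linarith) (by linarith) (by linarith) (by norm_num)
        _ = 2 := by norm_num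
    nlinarith
  linarith

/-- the weighted inequality, all directions together -/
theorem wblock_ge (T : Finset ι) (L : ι → V → ℤ) {μ : V → ℝ} {ν : V → V → ℝ}
    (hμ : ∀ x, 0 ≤ μ x) (hs : ∑ x, μ x = 1) (hν : ∀ r x, 0 ≤ ν r x)
    (h0 : ∀ r x, μ r * μ x = 0 → μ r * ν r x = 0)
    (hsep : ∀ θ ∈ T, ∀ θ' ∈ T, ∀ x y : V, x ≠ y → L θ x = L θ y → L θ' x = L θ' y → θ = θ')
    (K : ι → ℝ) (K0 s η β : ℝ) (hK0 : 0 < K0) (hK : ∀ θ ∈ T, K0 ≤ K θ)
    (hs0 : 0 < s) (hs1 : s ≤ 1) (hη : 0 ≤ η) (hβ0 : 0 ≤ β) (hβ1 : β ≤ 1) (hηβ : η ≤ 2 * β)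
    (hL : ∀ θ ∈ T, ((univ.image (L θ)).card : ℝ) ≤ K θ) :
    (∑ θ ∈ T, 1 / K θ ^ 2 * (3 * β ^ 2 * (∑ x, if μ x ≤ η / (3 * K θ) then μ x else 0)
        - 2 * β ^ 3 - 2 * s - 2 * η))
      - 2 / (s * K0) * (∑ r, ∑ x, phi (μ r * ν r x) (μ r * μ x))
      ≤ ∑ r, μ r * Psi T L r (ν r) := by
  set D := ∑ r, ∑ x, phi (μ r * ν r x) (μ r * μ x) with hD
  set b : ι → ℝ := fun θ => η / (3 * K θ) with hb
  set a : ι → ℝ := fun θ => ∑ x, if μ x ≤ b θ then μ x else 0 with ha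
  have hKpos : ∀ θ ∈ T, 0 < K θ := fun θ hθ => lt_of_lt_of_le hK0 (hK θ hθ)
  have ha0 : ∀ θ, 0 ≤ a θ := by
    intro θ
    apply sum_nonneg; intro x _; split_ifs
    · exact hμ x
    · exact le_rfl
  have ha1 : ∀ θ, a θ ≤ 1 := by
    intro θ
    rw [← hs]; apply sum_le_sum; intro x _; split_ifs
    · exact le_rfl
    · exact hμ x
  set P : ι → ℝ := fun θ => ∑ r, μ r * ∑ x, (if (L θ x = L θ r ∧ r ≠ x ∧ μ r ≤ b θ ∧ μ x ≤ b θ ∧
      μ r * ν r x ≤ 3 * (μ r * μ x)) then ν r x else 0) with hP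
  set E : ι → ℝ := fun θ => ∑ r, ∑ x, (if (r ≠ x ∧ L θ x = L θ r) ∧ μ r ≤ b θ ∧ μ x ≤ b θ
      then μ r * μ x else 0) with hE
  have hE1 : ∀ θ ∈ T, a θ ^ 2 / K θ - b θ ≤ E θ := by
    intro θ hθ
    exact prod1_ge (L θ) hμ hs.le (K θ) (b θ) (hKpos θ hθ)
      (by have := hKpos θ hθ; simp only [hb]; positivity) (hL θ hθ)
  have hE0 : ∀ θ, 0 ≤ E θ := by
    intro θ
    refine sum_nonneg (fun r _ => sum_nonneg (fun x _ => ?_))
    split_ifs
    · exact mul_nonneg (hμ r) (hμ x)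
    · exact le_rfl
  -- step 1
  have step1 : ∑ θ ∈ T, ((2 * β - η) / K θ * P θ - (β / K θ) ^ 2 * a θ)
      ≤ ∑ r, μ r * Psi T L r (ν r) := by
    have h1 : ∀ θ ∈ T, ∀ r : V, μ r * ((2 * (β / K θ) - η / K θ) * (∑ x,
        (if (L θ x = L θ r ∧ r ≠ x ∧ μ r ≤ b θ ∧ μ x ≤ b θ ∧
          μ r * ν r x ≤ 3 * (μ r * μ x)) then ν r x else 0))
          - (β / K θ) ^ 2 * (if μ r ≤ b θ then 1 else 0))
        ≤ μ r * ∑ x, ∑ y, (if x ≠ y ∧ L θ x = L θ r ∧ L θ y = L θ r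
          then ν r x * ν r y else 0) := by
      intro θ hθ r
      by_cases hr : μ r = 0
      · rw [hr, zero_mul, zero_mul]
      · have hr' : 0 < μ r := lt_of_le_of_ne (hμ r) (Ne.symm hr)
        apply mul_le_mul_of_nonneg_left _ (hμ r)
        by_cases hrb : μ r ≤ b θ
        · rw [if_pos hrb, mul_one]
          apply Psi1_ge (L θ) r (hν r)
            (fun x => L θ x = L θ r ∧ r ≠ x ∧ μ r ≤ b θ ∧ μ x ≤ b θ ∧
              μ r * ν r x ≤ 3 * (μ r * μ x))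
          · intro x hx; exact hx.1
          · intro x hx
            have h2 := hx.2.2.2.2
            have h3 : μ r * ν r x ≤ μ r * (3 * μ x) := by linarith
            have h4 := le_of_mul_le_mul_left h3 hr'
            have h5 := hx.2.2.2.1
            have h6 : 3 * b θ = η / K θ := by
              have := hKpos θ hθ
              simp only [hb]; field_simp
            linarith
        · rw [if_neg hrb, mul_zero, sub_zero]
          have h7 : ∑ x, (if (L θ x = L θ r ∧ r ≠ x ∧ μ r ≤ b θ ∧ μ x ≤ b θ ∧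
            μ r * ν r x ≤ 3 * (μ r * μ x)) then ν r x else 0) = 0 := by
            apply sum_eq_zero; intro x _
            rw [if_neg]; intro h; exact hrb h.2.2.1
          rw [h7, mul_zero]
          refine sum_nonneg (fun x _ => sum_nonneg (fun y _ => ?_))
          split_ifs
          · exact mul_nonneg (hν r x) (hν r y)
          · exact le_rfl
    have h2 : ∑ r, μ r * Psi T L r (ν r) = ∑ θ ∈ T, ∑ r, μ r * ∑ x, ∑ y,
        (if x ≠ y ∧ L θ x = L θ r ∧ L θ y = L θ r then ν r x * ν r y else 0) := by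
      unfold Psi
      rw [sum_comm]
      apply sum_congr rfl
      intro r _
      rw [mul_sum]
    rw [h2]
    apply sum_le_sum
    intro θ hθ
    refine le_trans (le_of_eq ?_) (sum_le_sum (fun r _ => h1 θ hθ r))
    have h3 : ∑ r, μ r * ((2 * (β / K θ) - η / K θ) * (∑ x,
        (if (L θ x = L θ r ∧ r ≠ x ∧ μ r ≤ b θ ∧ μ x ≤ b θ ∧
          μ r * ν r x ≤ 3 * (μ r * μ x)) then ν r x else 0))
          - (β / K θ) ^ 2 * (if μ r ≤ b θ then 1 else 0))
        = (2 * (β / K θ) - η / K θ) * P θ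
          - (β / K θ) ^ 2 * ∑ r, (if μ r ≤ b θ then μ r else 0) := by
      simp only [hP, mul_sum]
      rw [← sum_sub_distrib]
      apply sum_congr rfl
      intro r _
      rw [mul_sub]
      congr 1
      · rw [mul_sum]
        apply sum_congr rfl
        intro x _
        ring
      · split_ifs
        · ring
        · ring
    rw [h3]
    have h4 : 2 * (β / K θ) - η / K θ = (2 * β - η) / K θ := by ring
    rw [h4]
  -- step 2
  set sg : ι → ℝ := fun θ => s * K0 / K θ with hsg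
  have hsg0 : ∀ θ ∈ T, 0 < sg θ := by
    intro θ hθ
    have := hKpos θ hθ
    simp only [hsg]; positivity
  have hsgs : ∀ θ ∈ T, sg θ ≤ s := by
    intro θ hθ
    have := hKpos θ hθ
    simp only [hsg]
    rw [div_le_iff₀ this]
    exact mul_le_mul_of_nonneg_left (hK θ hθ) hs0.le
  have step2 : ∑ θ ∈ T, ((1 - Real.exp (-(sg θ))) * E θ - sg θ * P θ) ≤ D := by
    have hphi0 : ∀ r x, 0 ≤ phi (μ r * ν r x) (μ r * μ x) := fun r x =>
      phi_nonneg (mul_nonneg (hμ r) (hν r x)) (mul_nonneg (hμ r) (hμ x)) (h0 r x)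
    have h1 : ∀ r x, ∑ θ ∈ T, (if (r ≠ x ∧ L θ x = L θ r) ∧ μ r ≤ b θ ∧ μ x ≤ b θ
        then phi (μ r * ν r x) (μ r * μ x) else 0) ≤ phi (μ r * ν r x) (μ r * μ x) := by
      intro r x
      by_cases hex : ∃ θ ∈ T, (r ≠ x ∧ L θ x = L θ r) ∧ μ r ≤ b θ ∧ μ x ≤ b θ
      · obtain ⟨θ, hθ, hθ'⟩ := hex
        rw [sum_eq_single θ]
        · rw [if_pos hθ']
        · intro θ2 h2 hne
          rw [if_neg]
          intro h3
          exact hne (hsep θ2 h2 θ hθ r x h3.1.1 h3.1.2.symm hθ'.1.2.symm)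
        · intro h; exact absurd hθ h
      · rw [sum_eq_zero]
        · exact hphi0 r x
        · intro θ hθ
          rw [if_neg]
          intro h3
          exact hex ⟨θ, hθ, h3⟩
    have h2 : ∀ θ ∈ T, ∀ r x, (1 - Real.exp (-(sg θ))) * (if (r ≠ x ∧ L θ x = L θ r) ∧ μ r ≤ b θ
          ∧ μ x ≤ b θ then μ r * μ x else 0) - sg θ * (μ r * (if (L θ x = L θ r ∧ r ≠ x ∧
            μ r ≤ b θ ∧ μ x ≤ b θ ∧ μ r * ν r x ≤ 3 * (μ r * μ x)) then ν r x else 0))
        ≤ (if (r ≠ x ∧ L θ x = L θ r) ∧ μ r ≤ b θ ∧ μ x ≤ b θ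
          then phi (μ r * ν r x) (μ r * μ x) else 0) := by
      intro θ hθ r x
      have hex : 0 < Real.exp (-(sg θ)) := Real.exp_pos _
      by_cases hc : (r ≠ x ∧ L θ x = L θ r) ∧ μ r ≤ b θ ∧ μ x ≤ b θ
      · rw [if_pos hc, if_pos hc]
        by_cases hg : μ r * ν r x ≤ 3 * (μ r * μ x)
        · rw [if_pos ⟨hc.1.2, hc.1.1, hc.2.1, hc.2.2, hg⟩]
          exact phi_ge (mul_nonneg (hμ r) (hν r x)) (mul_nonneg (hμ r) (hμ x)) (h0 r x)
        · rw [if_neg (fun h => hg h.2.2.2.2), mul_zero, mul_zero, sub_zero]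
          refine le_trans ?_ (phi_ge_of_large (mul_nonneg (hμ r) (hμ x)) (h0 r x) (not_le.1 hg))
          have := mul_nonneg (hμ r) (hμ x)
          nlinarith
      · rw [if_neg hc, if_neg hc, if_neg]
        · simp
        · intro h
          exact hc ⟨⟨h.2.1, h.1⟩, h.2.2.1, h.2.2.2.1⟩
    have h3 : ∑ θ ∈ T, ((1 - Real.exp (-(sg θ))) * E θ - sg θ * P θ) = ∑ θ ∈ T, ∑ r, ∑ x,
        ((1 - Real.exp (-(sg θ))) * (if (r ≠ x ∧ L θ x = L θ r) ∧ μ r ≤ b θ ∧ μ x ≤ b θ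
          then μ r * μ x else 0) - sg θ * (μ r * (if (L θ x = L θ r ∧ r ≠ x ∧ μ r ≤ b θ ∧
            μ x ≤ b θ ∧ μ r * ν r x ≤ 3 * (μ r * μ x)) then ν r x else 0))) := by
      apply sum_congr rfl
      intro θ _
      simp only [sum_sub_distrib, ← mul_sum]
      rfl
    rw [h3]
    refine (sum_le_sum (fun θ hθ => sum_le_sum (fun r _ => sum_le_sum
      (fun x _ => h2 θ hθ r x)))).trans ?_
    rw [sum_comm, hD]
    apply sum_le_sum
    intro r _
    rw [sum_comm]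
    apply sum_le_sum
    intro x _
    exact h1 r x
  -- step 3
  have hPE : (1 - s) * (∑ θ ∈ T, E θ / K θ) - D / (s * K0) ≤ ∑ θ ∈ T, P θ / K θ := by
    have h1 : (s * K0) * ((1 - s) * (∑ θ ∈ T, E θ / K θ)) - (s * K0) * ∑ θ ∈ T, P θ / K θ ≤ D := by
      refine le_trans ?_ step2
      rw [mul_sum, mul_sum, mul_sum, ← sum_sub_distrib]
      apply sum_le_sum
      intro θ hθ
      have hk := hKpos θ hθ
      have h2 := one_sub_exp_ge (hsg0 θ hθ)
      have h3 : (1 - s) * sg θ ≤ 1 - Real.exp (-(sg θ)) := by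
        refine le_trans ?_ h2
        apply mul_le_mul_of_nonneg_right _ (hsg0 θ hθ).le
        linarith [hsgs θ hθ]
      have h4 := mul_le_mul_of_nonneg_right h3 (hE0 θ)
      have h5 : s * K0 * ((1 - s) * (E θ / K θ)) - s * K0 * (P θ / K θ)
          = (1 - s) * sg θ * E θ - sg θ * P θ := by
        simp only [hsg]; ring
      rw [h5]
      linarith
    have h2 : (s * K0) * ((1 - s) * (∑ θ ∈ T, E θ / K θ) - D / (s * K0))
        ≤ (s * K0) * ∑ θ ∈ T, P θ / K θ := by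
      have : (s * K0) * (D / (s * K0)) = D := by field_simp
      linarith
    exact le_of_mul_le_mul_left h2 (by positivity)
  have hD0 : 0 ≤ D := by
    refine sum_nonneg (fun r _ => sum_nonneg (fun x _ => ?_))
    exact phi_nonneg (mul_nonneg (hμ r) (hν r x)) (mul_nonneg (hμ r) (hμ x)) (h0 r x)
  refine le_trans ?_ step1
  have e1 : ∑ θ ∈ T, ((2 * β - η) / K θ * P θ - (β / K θ) ^ 2 * a θ)
      = (2 * β - η) * (∑ θ ∈ T, P θ / K θ) - ∑ θ ∈ T, (β / K θ) ^ 2 * a θ := by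
    rw [sum_sub_distrib, mul_sum]
    congr 1
    apply sum_congr rfl
    intro θ _
    ring
  rw [e1]
  have h5 := mul_le_mul_of_nonneg_left hPE (show 0 ≤ 2 * β - η by linarith)
  have h6 : (∑ θ ∈ T, 1 / K θ ^ 2 * (3 * β ^ 2 * a θ - 2 * β ^ 3 - 2 * s - 2 * η))
      ≤ (2 * β - η) * ((1 - s) * (∑ θ ∈ T, E θ / K θ)) - ∑ θ ∈ T, (β / K θ) ^ 2 * a θ := by
    rw [mul_sum, mul_sum, ← sum_sub_distrib]
    apply sum_le_sum
    intro θ hθ
    have hk := hKpos θ hθ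
    have h7 : (2 * β - η) * ((1 - s) * ((a θ ^ 2 / K θ - b θ) / K θ))
        ≤ (2 * β - η) * ((1 - s) * (E θ / K θ)) := by
      apply mul_le_mul_of_nonneg_left _ (by linarith)
      apply mul_le_mul_of_nonneg_left _ (by linarith)
      apply div_le_div_of_nonneg_right (hE1 θ hθ) hk.le
    have h8 : 1 / K θ ^ 2 * (3 * β ^ 2 * a θ - 2 * β ^ 3 - 2 * s - 2 * η)
        ≤ (2 * β - η) * ((1 - s) * ((a θ ^ 2 / K θ - b θ) / K θ)) - (β / K θ) ^ 2 * a θ := by
      have h9 := alg_ineq (ha0 θ) (ha1 θ) hs0.le hs1 hη hβ0 hβ1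
      have h10 := mul_le_mul_of_nonneg_left h9 (show 0 ≤ 1 / K θ ^ 2 by positivity)
      refine h10.trans (le_of_eq ?_)
      simp only [hb]
      field_simp
    linarith
  have h7 : (2 * β - η) * (D / (s * K0)) ≤ 2 / (s * K0) * D := by
    have e2 : 2 / (s * K0) * D = 2 * (D / (s * K0)) := by ring
    rw [e2]
    apply mul_le_mul_of_nonneg_right _ (by positivity)
    linarith
  linarith

end Pool.N3
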