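import Mathlib
import Pool.Agent.Helper77.N3.Phi
import Pool.Agent.Helper77.N3.Wt

set_option autoImplicit false
set_option linter.unusedSectionVars false

namespace Pool.N3

open Finset

/-- admissible primitive directions -/
def Adm (θ : ℤ × ℤ) : Prop := 1 ≤ θ.1 ∧ θ.2 ≠ 0 ∧ IsCoprime θ.1 θ.2

/-- index set of the primitive directions of `ℓ¹` norm in `(N0, N1]` -/
def dirSet (N0 N1 : ℕ) : Finset ((Σ _ : ℕ, ℕ) × Bool) :=
  ((Ioc N0 N1).sigma (fun N => (range N).filter (fun u => N.Coprime u))) ×ˢ (univ : Finset Bool)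

/-- the direction -/
def vec (p : (Σ _ : ℕ, ℕ) × Bool) : ℤ × ℤ :=
  ((p.1.2 : ℤ), if p.2 then (p.1.1 : ℤ) - p.1.2 else -((p.1.1 : ℤ) - p.1.2))

lemma mem_dirSet {N0 N1 : ℕ} {p : (Σ _ : ℕ, ℕ) × Bool} : p ∈ dirSet N0 N1 ↔
    (N0 < p.1.1 ∧ p.1.1 ≤ N1) ∧ p.1.2 < p.1.1 ∧ p.1.1.Coprime p.1.2 := by
  unfold dirSet
  simp only [mem_product, mem_sigma, mem_Ioc, mem_filter, mem_range, mem_univ, and_true]

lemma vec_props {N0 N1 : ℕ} (hN0 : 1 ≤ N0) {p : (Σ _ : ℕ, ℕ) × Bool} (hp : p ∈ dirSet N0 N1) :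
    Adm (vec p) ∧ (vec p).1 + |(vec p).2| = (p.1.1 : ℤ) := by
  rw [mem_dirSet] at hp
  obtain ⟨⟨h1, h2⟩, h3, h4⟩ := hp
  have hu : 1 ≤ p.1.2 := by
    rcases Nat.eq_zero_or_pos p.1.2 with h | h
    · rw [h, Nat.coprime_zero_right] at h4; omega
    · exact h
  have hc : IsCoprime (p.1.2 : ℤ) ((p.1.1 : ℤ) - p.1.2) := by
    have e1 : IsCoprime (p.1.1 : ℤ) (p.1.2 : ℤ) := Nat.isCoprime_iff_coprime.2 h4
    have e2 : IsCoprime ((p.1.1 : ℤ) + p.1.2 * (-1)) (p.1.2 : ℤ) :=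
      IsCoprime.add_mul_left_left e1 (-1)
    have e3 : (p.1.1 : ℤ) + p.1.2 * (-1) = (p.1.1 : ℤ) - p.1.2 := by ring
    rw [e3] at e2
    exact e2.symm
  have habs : |(p.1.1 : ℤ) - p.1.2| = (p.1.1 : ℤ) - p.1.2 := abs_of_nonneg (by omega)
  unfold Adm vec
  cases p.2
  · simp only [Bool.false_eq_true, if_false]
    refine ⟨⟨by omega, by omega, hc.neg_right⟩, ?_⟩
    rw [abs_neg, habs]; ring
  · simp only [if_true]
    refine ⟨⟨by omega, by omega, hc⟩, ?_⟩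
    rw [habs]; ring

lemma vec_inj {N0 N1 : ℕ} {p q : (Σ _ : ℕ, ℕ) × Bool} (hp : p ∈ dirSet N0 N1)
    (hq : q ∈ dirSet N0 N1) (h : vec p = vec q) : p = q := by
  rw [mem_dirSet] at hp hq
  obtain ⟨⟨N, u⟩, b⟩ := p
  obtain ⟨⟨M, v⟩, c⟩ := q
  simp only [vec, Prod.mk.injEq] at h hp hq
  obtain ⟨h1, h2⟩ := h
  have h3 : u = v := by exact_mod_cast h1
  subst h3
  cases b <;> cases c <;> simp only [Bool.false_eq_true, if_true, if_false] at h2
  · have : N = M := by omega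
    subst this; rfl
  · omega
  · omega
  · have : N = M := by omega
    subst this; rfl

lemma sum_dirSet (N0 N1 : ℕ) (f : ℕ → ℝ) :
    ∑ p ∈ dirSet N0 N1, f p.1.1 = ∑ N ∈ Ioc N0 N1, 2 * (Nat.totient N : ℝ) * f N := by
  unfold dirSet
  rw [sum_product, sum_sigma]
  apply sum_congr rfl
  intro N _
  simp only [sum_const, card_univ, Fintype.card_bool, nsmul_eq_mul]
  have : ((range N).filter (fun u => N.Coprime u)).card = Nat.totient N := rfl
  rw [this]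
  push_cast
  ring

/-- a primitive direction is determined by two points on a line in this direction -/
lemma adm_sep {θ θ' : ℤ × ℤ} (h1 : Adm θ) (h2 : Adm θ') {x y : ℤ × ℤ}
    (hxy : x ≠ y) (e1 : θ.2 * x.1 - θ.1 * x.2 = θ.2 * y.1 - θ.1 * y.2)
    (e2 : θ'.2 * x.1 - θ'.1 * x.2 = θ'.2 * y.1 - θ'.1 * y.2) : θ = θ' := by
  obtain ⟨hu, hv, hc⟩ := h1
  obtain ⟨hu', hv', hc'⟩ := h2
  obtain ⟨u, v⟩ := θ
  obtain ⟨u', v'⟩ := θ'
  obtain ⟨x1, x2⟩ := x
  obtain ⟨y1, y2⟩ := y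
  simp only at *
  have f1 : v * (x1 - y1) = u * (x2 - y2) := by linarith
  have f2 : v' * (x1 - y1) = u' * (x2 - y2) := by linarith
  have ha : x1 - y1 ≠ 0 := by
    intro h
    rw [h, mul_zero] at f1
    have h3 : x2 - y2 = 0 := by
      rcases mul_eq_zero.1 f1.symm with h4 | h4
      · omega
      · exact h4
    apply hxy
    rw [Prod.mk.injEq]
    constructor <;> omega
  have f3 : v * u' = v' * u := by
    have h3 : (v * u' - v' * u) * (x1 - y1) = 0 := by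
      linear_combination u' * f1 - u * f2
    rcases mul_eq_zero.1 h3 with h4 | h4
    · linarith
    · exact absurd h4 ha
  have d1 : u ∣ u' := by
    have : u ∣ v * u' := ⟨v', by rw [f3]; ring⟩
    exact hc.dvd_of_dvd_mul_left this
  have d2 : u' ∣ u := by
    have : u' ∣ v' * u := ⟨v, by rw [← f3]; ring⟩
    exact hc'.dvd_of_dvd_mul_left this
  have e : u = u' := Int.dvd_antisymm (by omega) (by omega) d1 d2
  subst e
  have e' : v = v' := by
    have : u ≠ 0 := by omega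
    exact mul_right_cancel₀ this f3
  rw [e']

/-- equal labels imply collinearity -/
lemma adm_collinear {θ : ℤ × ℤ} (h1 : Adm θ) {x y z : ℤ × ℤ}
    (e1 : θ.2 * x.1 - θ.1 * x.2 = θ.2 * y.1 - θ.1 * y.2)
    (e2 : θ.2 * x.1 - θ.1 * x.2 = θ.2 * z.1 - θ.1 * z.2) :
    (y.1 - x.1) * (z.2 - x.2) = (y.2 - x.2) * (z.1 - x.1) := by
  obtain ⟨hu, -⟩ := h1
  have hu0 : θ.1 ≠ 0 := by omega
  apply mul_left_cancel₀ hu0
  linear_combination (y.1 - x.1) * e2 - (z.1 - x.1) * e1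

/-- number of labels -/
lemma adm_labels {n : ℕ} (hn : 1 ≤ n) {θ : ℤ × ℤ} (h1 : Adm θ) (s : Finset (ℤ × ℤ))
    (hs : ∀ p ∈ s, 0 ≤ p.1 ∧ p.1 < (n : ℤ) ∧ 0 ≤ p.2 ∧ p.2 < (n : ℤ)) :
    (((s.image (fun p => θ.2 * p.1 - θ.1 * p.2)).card : ℕ) : ℤ) ≤ (θ.1 + |θ.2|) * n := by
  obtain ⟨hu, hv, -⟩ := h1
  have key : ∃ lo : ℤ, s.image (fun p => θ.2 * p.1 - θ.1 * p.2) ⊆
      Icc lo (lo + (θ.1 + |θ.2|) * ((n : ℤ) - 1)) := by
    rcases lt_or_gt_of_ne hv with h | h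
    · refine ⟨-((θ.1 + |θ.2|) * ((n : ℤ) - 1)), ?_⟩
      intro l hl
      rw [mem_image] at hl
      obtain ⟨p, hp, rfl⟩ := hl
      obtain ⟨p1, p2, p3, p4⟩ := hs p hp
      rw [mem_Icc, abs_of_neg h]
      constructor
      · nlinarith [mul_nonneg (show (0 : ℤ) ≤ -θ.2 by omega) (show (0 : ℤ) ≤ (n : ℤ) - 1 - p.1 by omega),
          mul_nonneg (show (0 : ℤ) ≤ θ.1 by omega) (show (0 : ℤ) ≤ (n : ℤ) - 1 - p.2 by omega)]
      · nlinarith [mul_nonneg (show (0 : ℤ) ≤ -θ.2 by omega) p1,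
          mul_nonneg (show (0 : ℤ) ≤ θ.1 by omega) p3]
    · refine ⟨-(θ.1 * ((n : ℤ) - 1)), ?_⟩
      intro l hl
      rw [mem_image] at hl
      obtain ⟨p, hp, rfl⟩ := hl
      obtain ⟨p1, p2, p3, p4⟩ := hs p hp
      rw [mem_Icc, abs_of_pos h]
      constructor
      · nlinarith [mul_nonneg (show (0 : ℤ) ≤ θ.2 by omega) p1,
          mul_nonneg (show (0 : ℤ) ≤ θ.1 by omega) (show (0 : ℤ) ≤ (n : ℤ) - 1 - p.2 by omega)]
      · nlinarith [mul_nonneg (show (0 : ℤ) ≤ θ.2 by omega) (show (0 : ℤ) ≤ (n : ℤ) - 1 - p.1 by omega),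
          mul_nonneg (show (0 : ℤ) ≤ θ.1 by omega) p3]
  obtain ⟨lo, hlo⟩ := key
  have h2 := card_le_card hlo
  rw [Int.card_Icc] at h2
  have h10 := abs_pos.2 hv
  have h3 : 0 ≤ (θ.1 + |θ.2|) * ((n : ℤ) - 1) := by
    apply mul_nonneg <;> omega
  have h5 : (((s.image (fun p => θ.2 * p.1 - θ.1 * p.2)).card : ℕ) : ℤ)
      ≤ (θ.1 + |θ.2|) * ((n : ℤ) - 1) + 1 := by
    have h6 : (lo + (θ.1 + |θ.2|) * ((n : ℤ) - 1) + 1 - lo)
        = (θ.1 + |θ.2|) * ((n : ℤ) - 1) + 1 := by ring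
    rw [h6] at h2
    have h7 : ((((θ.1 + |θ.2|) * ((n : ℤ) - 1) + 1).toNat : ℕ) : ℤ)
        = (θ.1 + |θ.2|) * ((n : ℤ) - 1) + 1 := Int.toNat_of_nonneg (by omega)
    rw [← h7]
    exact_mod_cast h2
  nlinarith

/-- partial sums of the weights -/
lemma sum_Ioc_weights (N0 N1 : ℕ) (h : N0 ≤ N1) :
    ∑ N ∈ Ioc N0 N1, (Nat.totient N : ℝ) / (N : ℝ) ^ 2 = St N1 - St N0 := by
  unfold St
  have h1 : Icc 1 N1 = Icc 1 N0 ∪ Ioc N0 N1 := by
    ext d; simp only [mem_Icc, mem_union, mem_Ioc]; omega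
  rw [h1, sum_union]
  · ring
  · rw [disjoint_left]
    intro d hd hd'
    rw [mem_Icc] at hd; rw [mem_Ioc] at hd'; omega

lemma inner_ge {C : ℝ} (hC0 : 0 ≤ C)
    (hC : ∀ y : ℕ, 1 ≤ y → |St y - 6 / Real.pi ^ 2 * Real.log y| ≤ C)
    (N0 n : ℕ) (hn : 1 ≤ n) (Y : ℝ) (hY : 0 < Y) :
    6 / Real.pi ^ 2 * min (Real.log n) (Real.log Y) - (C + St N0 + 1)
      ≤ ∑ N ∈ (Ioc N0 n).filter (fun N : ℕ => (N : ℝ) ≤ Y), (Nat.totient N : ℝ) / (N : ℝ) ^ 2 := by
  have hα0 : 0 < 6 / Real.pi ^ 2 := by have := Real.pi_pos; positivity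
  have hα1 : 6 / Real.pi ^ 2 ≤ 1 := by
    have := Real.pi_gt_three
    rw [div_le_one (by positivity)]; nlinarith
  have hS0 := St_nonneg N0
  have hpos : 0 ≤ ∑ N ∈ (Ioc N0 n).filter (fun N : ℕ => (N : ℝ) ≤ Y),
      (Nat.totient N : ℝ) / (N : ℝ) ^ 2 := by positivity
  by_cases hY1 : Y < 1
  · have h1 : Real.log Y < 0 := Real.log_neg hY hY1
    have h2 : min (Real.log n) (Real.log Y) ≤ 0 := (min_le_right _ _).trans h1.le
    have h3 := mul_nonneg_of_nonpos_of_nonpos (show -(6 / Real.pi ^ 2) ≤ 0 by linarith) h2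
    nlinarith
  · push Not at hY1
    set M := min n ⌊Y⌋₊ with hM
    have hfl : 1 ≤ ⌊Y⌋₊ := Nat.one_le_floor_iff _ |>.2 hY1
    have hM1 : 1 ≤ M := le_min hn hfl
    have hsub : (Ioc N0 n).filter (fun N : ℕ => (N : ℝ) ≤ Y) = Ioc N0 M := by
      ext N
      simp only [mem_filter, mem_Ioc, hM, le_min_iff, Nat.le_floor_iff hY.le]
      tauto
    rw [hsub]
    have h1 := (abs_le.1 (hC M hM1)).1
    have h2 : min (Real.log n) (Real.log Y) - 1 ≤ Real.log M := by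
      rcases le_total n ⌊Y⌋₊ with h | h
      · have : M = n := min_eq_left h
        rw [this]
        linarith [min_le_left (Real.log (n : ℝ)) (Real.log Y)]
      · have : M = ⌊Y⌋₊ := min_eq_right h
        rw [this]
        have h3 : Y ≤ 2 * (⌊Y⌋₊ : ℝ) := by
          have h4 := (Nat.lt_floor_add_one Y).le
          have h5 : (1 : ℝ) ≤ (⌊Y⌋₊ : ℝ) := by exact_mod_cast hfl
          linarith
        have h6 : Real.log Y ≤ Real.log 2 + Real.log (⌊Y⌋₊ : ℝ) := by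
          rw [← Real.log_mul (by norm_num) (by positivity)]
          exact Real.log_le_log hY h3
        have h7 : Real.log 2 ≤ 1 := by have := Real.log_two_lt_d9; linarith
        linarith [min_le_right (Real.log (n : ℝ)) (Real.log Y)]
    have h3 : 6 / Real.pi ^ 2 * (min (Real.log n) (Real.log Y) - 1) ≤ 6 / Real.pi ^ 2 * Real.log M :=
      mul_le_mul_of_nonneg_left h2 hα0.le
    rcases le_or_gt N0 M with h | h
    · rw [sum_Ioc_weights N0 M h]
      linarith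
    · rw [Ioc_eq_empty (by omega), sum_empty]
      have h4 : St M ≤ St N0 := by
        unfold St
        apply sum_le_sum_of_subset_of_nonneg
        · intro k hk; rw [mem_Icc] at hk ⊢; omega
        · intro k _ _; positivity
      linarith

variable {V : Type*} [Fintype V] [DecidableEq V]

/-- the masses of the light points, averaged over all directions -/
theorem sum_light_ge {C : ℝ} (hC0 : 0 ≤ C)
    (hC : ∀ y : ℕ, 1 ≤ y → |St y - 6 / Real.pi ^ 2 * Real.log y| ≤ C)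
    {μ : V → ℝ} (hμ : ∀ x, 0 ≤ μ x) (hs : ∑ x, μ x = 1) (n N0 : ℕ)
    (hn : 1 ≤ n) (hV : (Fintype.card V : ℝ) ≤ (n : ℝ) ^ 2) (η : ℝ) (hη : 0 < η) (hη1 : η ≤ 3) :
    6 / Real.pi ^ 2 * (ent μ - Real.log n - Real.log (3 / η) - 1) - (C + St N0 + 1)
      ≤ ∑ N ∈ Ioc N0 n, (Nat.totient N : ℝ) / (N : ℝ) ^ 2 *
          ∑ x, (if μ x ≤ η / (3 * ((N : ℝ) * n)) then μ x else 0) := by
  have hn0 : (0 : ℝ) < n := by exact_mod_cast hn
  have hα0 : 0 < 6 / Real.pi ^ 2 := by have := Real.pi_pos; positivity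
  set α := 6 / Real.pi ^ 2 with hα
  have hC2 : 0 ≤ C + St N0 + 1 := by have := St_nonneg N0; linarith
  have key : ∀ x : V, α * (Real.negMulLog (μ x) - μ x * (Real.log n + Real.log (3 / η))
        - 1 / (n : ℝ) ^ 2) - μ x * (C + St N0 + 1)
      ≤ ∑ N ∈ Ioc N0 n, (Nat.totient N : ℝ) / (N : ℝ) ^ 2 *
          (if μ x ≤ η / (3 * ((N : ℝ) * n)) then μ x else 0) := by
    intro x
    by_cases h0 : μ x = 0
    · rw [h0]
      simp only [Real.negMulLog_zero, zero_mul, sub_zero, zero_sub]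
      have h1 : 0 ≤ α * (1 / (n : ℝ) ^ 2) := by positivity
      have h2 : ∑ N ∈ Ioc N0 n, (Nat.totient N : ℝ) / (N : ℝ) ^ 2 *
          (if (0 : ℝ) ≤ η / (3 * ((N : ℝ) * n)) then (0 : ℝ) else 0) = 0 := by
        apply sum_eq_zero; intro N _; split_ifs <;> simp
      rw [h2]
      linarith
    · have hx : 0 < μ x := lt_of_le_of_ne (hμ x) (Ne.symm h0)
      set Y := η / (3 * (n * μ x)) with hY
      have hY0 : 0 < Y := by positivity
      have h1 : ∑ N ∈ Ioc N0 n, (Nat.totient N : ℝ) / (N : ℝ) ^ 2 *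
          (if μ x ≤ η / (3 * ((N : ℝ) * n)) then μ x else 0)
          = μ x * ∑ N ∈ (Ioc N0 n).filter (fun N : ℕ => (N : ℝ) ≤ Y),
            (Nat.totient N : ℝ) / (N : ℝ) ^ 2 := by
        rw [sum_filter, mul_sum]
        apply sum_congr rfl
        intro N hN
        rw [mem_Ioc] at hN
        have hN0 : (0 : ℝ) < N := by exact_mod_cast (by omega : 0 < N)
        have h2 : μ x ≤ η / (3 * ((N : ℝ) * n)) ↔ (N : ℝ) ≤ Y := by
          rw [hY, le_div_iff₀ (by positivity), le_div_iff₀ (by positivity)]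
          constructor
          · intro h; nlinarith
          · intro h; nlinarith
        by_cases h3 : μ x ≤ η / (3 * ((N : ℝ) * n))
        · rw [if_pos h3, if_pos (h2.1 h3)]; ring
        · rw [if_neg h3, if_neg (fun h => h3 (h2.2 h))]; ring
      rw [h1]
      have h2 := mul_le_mul_of_nonneg_left (inner_ge hC0 hC N0 n hn Y hY0) hx.le
      refine le_trans ?_ h2
      have h4 : Real.log Y = -Real.log (μ x) - Real.log n - Real.log (3 / η) := by
        rw [hY, Real.log_div (ne_of_gt hη) (by positivity),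
          Real.log_mul (by norm_num) (by positivity), Real.log_mul (ne_of_gt hn0) (ne_of_gt hx),
          Real.log_div (by norm_num) (ne_of_gt hη)]
        ring
      have h5 : Real.negMulLog (μ x) - μ x * (Real.log n + Real.log (3 / η))
        - 1 / (n : ℝ) ^ 2 ≤ μ x * min (Real.log n) (Real.log Y) := by
        rcases le_total (Real.log Y) (Real.log n) with h6 | h6
        · rw [min_eq_right h6, h4]
          unfold Real.negMulLog
          have : 0 ≤ 1 / (n : ℝ) ^ 2 := by positivity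
          nlinarith
        · rw [min_eq_left h6]
          have h7 := Real.log_le_sub_one_of_pos (show (0 : ℝ) < 1 / ((n : ℝ) ^ 2 * μ x) by positivity)
          rw [one_div, Real.log_inv, Real.log_mul (by positivity) h0, Real.log_pow] at h7
          push_cast at h7
          have h8 := mul_le_mul_of_nonneg_left h7 hx.le
          have h9 : μ x * (((n : ℝ) ^ 2 * μ x)⁻¹ - 1) = 1 / (n : ℝ) ^ 2 - μ x := by
            field_simp
          rw [h9] at h8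
          have h10 : 0 ≤ Real.log (3 / η) := by
            apply Real.log_nonneg
            rw [le_div_iff₀ hη]; linarith
          have h12 : 0 ≤ μ x * Real.log (3 / η) := mul_nonneg hx.le h10
          unfold Real.negMulLog
          nlinarith
      have h6 := mul_le_mul_of_nonneg_left h5 hα0.le
      have h7 : μ x * (α * min (Real.log n) (Real.log Y) - (C + St N0 + 1))
          = α * (μ x * min (Real.log n) (Real.log Y)) - μ x * (C + St N0 + 1) := by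
        ring
      rw [h7]
      linarith
  have hswap : ∑ N ∈ Ioc N0 n, (Nat.totient N : ℝ) / (N : ℝ) ^ 2 *
          ∑ x, (if μ x ≤ η / (3 * ((N : ℝ) * n)) then μ x else 0)
      = ∑ x, ∑ N ∈ Ioc N0 n, (Nat.totient N : ℝ) / (N : ℝ) ^ 2 *
          (if μ x ≤ η / (3 * ((N : ℝ) * n)) then μ x else 0) := by
    rw [sum_comm]
    apply sum_congr rfl
    intro N _
    rw [mul_sum]
  rw [hswap]
  refine le_trans ?_ (sum_le_sum (fun x _ => key x))
  rw [sum_sub_distrib, ← mul_sum, sum_sub_distrib, sum_sub_distrib, ← sum_mul, ← sum_mul, hs,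
    one_mul, one_mul, sum_const, card_univ, nsmul_eq_mul]
  have h1 : (Fintype.card V : ℝ) * (1 / (n : ℝ) ^ 2) ≤ 1 := by
    rw [mul_one_div, div_le_one (by positivity)]
    exact hV
  have h2 : α * (ent μ - Real.log n - Real.log (3 / η) - 1) ≤
      α * (∑ x, Real.negMulLog (μ x) - (Real.log n + Real.log (3 / η))
        - (Fintype.card V : ℝ) * (1 / (n : ℝ) ^ 2)) := by
    apply mul_le_mul_of_nonneg_left _ hα0.le
    unfold ent
    linarith
  linarith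

/-- the local inequality with the sharp density of primitive directions -/
theorem local2 {C : ℝ} (hC0 : 0 ≤ C)
    (hC : ∀ y : ℕ, 1 ≤ y → |St y - 6 / Real.pi ^ 2 * Real.log y| ≤ C)
    (L : ((Σ _ : ℕ, ℕ) × Bool) → V → ℤ) {μ : V → ℝ} {ν : V → V → ℝ}
    (hμ : ∀ x, 0 ≤ μ x) (hs : ∑ x, μ x = 1) (hν : ∀ r x, 0 ≤ ν r x)
    (h0 : ∀ r x, μ r * μ x = 0 → μ r * ν r x = 0) (n N0 : ℕ) (hN0 : 1 ≤ N0) (hN0n : N0 ≤ n)
    (hsep : ∀ θ ∈ dirSet N0 n, ∀ θ' ∈ dirSet N0 n, ∀ x y : V, x ≠ y →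
      L θ x = L θ y → L θ' x = L θ' y → θ = θ')
    (hV : (Fintype.card V : ℝ) ≤ (n : ℝ) ^ 2)
    (s η β : ℝ) (hη : 0 < η) (hη1 : η ≤ 3)
    (hs0 : 0 < s) (hs1 : s ≤ 1) (hβ0 : 0 ≤ β) (hβ1 : β ≤ 1) (hηβ : η ≤ 2 * β)
    (hL : ∀ θ ∈ dirSet N0 n, ((univ.image (L θ)).card : ℝ) ≤ (θ.1.1 : ℝ) * n) :
    2 / (n : ℝ) ^ 2 * (3 * β ^ 2 * (6 / Real.pi ^ 2 * (ent μ - Real.log n - Real.log (3 / η) - 1)
          - (C + St N0 + 1))
        - (2 * β ^ 3 + 2 * s + 2 * η) * (6 / Real.pi ^ 2 * Real.log n + C))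
      - 2 / (s * (N0 * n)) * (∑ r, ∑ x, phi (μ r * ν r x) (μ r * μ x))
      ≤ ∑ r, μ r * Psi (dirSet N0 n) L r (ν r) := by
  have hn : 1 ≤ n := hN0.trans hN0n
  have hn0 : (0 : ℝ) < n := by exact_mod_cast hn
  have hN00 : (0 : ℝ) < N0 := by exact_mod_cast hN0
  have hα0 : 0 < 6 / Real.pi ^ 2 := by have := Real.pi_pos; positivity
  have h1 := wblock_ge (dirSet N0 n) L hμ hs hν h0 hsep (fun θ => (θ.1.1 : ℝ) * n)
    ((N0 : ℝ) * n) s η β (by positivity)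
    (fun θ hθ => by
      rw [mem_dirSet] at hθ
      have : (N0 : ℝ) ≤ (θ.1.1 : ℝ) := by exact_mod_cast hθ.1.1.le
      exact mul_le_mul_of_nonneg_right this hn0.le)
    hs0 hs1 hη.le hβ0 hβ1 hηβ hL
  refine le_trans ?_ h1
  have h2 : (∑ θ ∈ dirSet N0 n, 1 / ((θ.1.1 : ℝ) * n) ^ 2 *
      (3 * β ^ 2 * (∑ x, if μ x ≤ η / (3 * ((θ.1.1 : ℝ) * n)) then μ x else 0)
        - 2 * β ^ 3 - 2 * s - 2 * η))
      = 2 / (n : ℝ) ^ 2 * (3 * β ^ 2 * (∑ N ∈ Ioc N0 n, (Nat.totient N : ℝ) / (N : ℝ) ^ 2 *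
          ∑ x, (if μ x ≤ η / (3 * ((N : ℝ) * n)) then μ x else 0))
        - (2 * β ^ 3 + 2 * s + 2 * η) * ∑ N ∈ Ioc N0 n, (Nat.totient N : ℝ) / (N : ℝ) ^ 2) := by
    rw [sum_dirSet N0 n (fun N => 1 / ((N : ℝ) * n) ^ 2 *
      (3 * β ^ 2 * (∑ x, if μ x ≤ η / (3 * ((N : ℝ) * n)) then μ x else 0)
        - 2 * β ^ 3 - 2 * s - 2 * η))]
    rw [mul_sum, mul_sum, ← sum_sub_distrib, mul_sum]
    apply sum_congr rfl
    intro N hN
    rw [mem_Ioc] at hN
    have hN0 : (0 : ℝ) < N := by exact_mod_cast (by omega : 0 < N)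
    field_simp
    ring
  rw [h2]
  have h3 := sum_light_ge hC0 hC hμ hs n N0 hn hV η hη hη1
  have h4 : ∑ N ∈ Ioc N0 n, (Nat.totient N : ℝ) / (N : ℝ) ^ 2
      ≤ 6 / Real.pi ^ 2 * Real.log n + C := by
    rw [sum_Ioc_weights N0 n hN0n]
    have h5 := (abs_le.1 (hC n hn)).2
    have := St_nonneg N0
    linarith
  have h5 := mul_le_mul_of_nonneg_left h3 (show 0 ≤ 3 * β ^ 2 by positivity)
  have h6 := mul_le_mul_of_nonneg_left h4 (show 0 ≤ 2 * β ^ 3 + 2 * s + 2 * η by positivity)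
  have h7 : 2 / (n : ℝ) ^ 2 * (3 * β ^ 2 * (6 / Real.pi ^ 2 * (ent μ - Real.log n
          - Real.log (3 / η) - 1) - (C + St N0 + 1))
        - (2 * β ^ 3 + 2 * s + 2 * η) * (6 / Real.pi ^ 2 * Real.log n + C))
      ≤ 2 / (n : ℝ) ^ 2 * (3 * β ^ 2 * (∑ N ∈ Ioc N0 n, (Nat.totient N : ℝ) / (N : ℝ) ^ 2 *
          ∑ x, (if μ x ≤ η / (3 * ((N : ℝ) * n)) then μ x else 0))
        - (2 * β ^ 3 + 2 * s + 2 * η) * ∑ N ∈ Ioc N0 n, (Nat.totient N : ℝ) / (N : ℝ) ^ 2) := by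
    apply mul_le_mul_of_nonneg_left _ (by positivity)
    linarith
  linarith

end Pool.N3
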