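import Mathlib
import Pool.Agent.Helper77.N3.Dir

set_option autoImplicit false

namespace Pool.N3

open Finset

/-- the `n × n` grid -/
noncomputable def box (n : ℕ) : Finset (ℤ × ℤ) := (Ico (0 : ℤ) n) ×ˢ (Ico (0 : ℤ) n)

lemma mem_box {n : ℕ} {p : ℤ × ℤ} :
    p ∈ box n ↔ 0 ≤ p.1 ∧ p.1 < (n : ℤ) ∧ 0 ≤ p.2 ∧ p.2 < (n : ℤ) := by
  unfold box
  rw [mem_product, mem_Ico, mem_Ico]
  tauto

lemma card_box (n : ℕ) : (box n).card = n ^ 2 := by
  unfold box
  rw [card_product, Int.card_Ico]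
  simp [pow_two]

/-- no three points on a line -/
def NoThree (S : Finset (ℤ × ℤ)) : Prop :=
  ∀ p ∈ S, ∀ q ∈ S, ∀ r ∈ S, p ≠ q → p ≠ r → q ≠ r →
    (q.1 - p.1) * (r.2 - p.2) ≠ (q.2 - p.2) * (r.1 - p.1)

open Classical in
/-- the no-three-in-line subsets of the `n × n` grid with `m` points -/
noncomputable def fam (n m : ℕ) : Finset (Finset (ℤ × ℤ)) :=
  (powersetCard m (box n)).filter NoThree

open Classical in
lemma mem_fam {n m : ℕ} {S : Finset (ℤ × ℤ)} : S ∈ fam n m ↔ (S ⊆ box n ∧ S.card = m) ∧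
    NoThree S := by
  unfold fam
  rw [mem_filter, mem_powersetCard]

/-- the trivial bound `2n` -/
lemma card_le_two_mul {n m : ℕ} {S : Finset (ℤ × ℤ)} (hS : S ∈ fam n m) : m ≤ 2 * n := by
  rw [mem_fam] at hS
  obtain ⟨⟨h1, h2⟩, h3⟩ := hS
  by_contra hlt
  push Not at hlt
  have hmaps : ∀ p ∈ S, p.2 ∈ Ico (0 : ℤ) n := by
    intro p hp
    have := mem_box.1 (h1 hp)
    rw [mem_Ico]; exact ⟨this.2.2.1, this.2.2.2⟩
  have hc : (Ico (0 : ℤ) n).card * 2 < S.card := by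
    rw [Int.card_Ico, h2]
    simp; omega
  obtain ⟨y, _, hy⟩ := exists_lt_card_fiber_of_mul_lt_card_of_maps_to hmaps hc
  rw [two_lt_card_iff] at hy
  obtain ⟨p, q, r, hp, hq, hr, hpq, hpr, hqr⟩ := hy
  rw [mem_filter] at hp hq hr
  apply h3 p hp.1 q hq.1 r hr.1 hpq hpr hqr
  rw [hq.2, hr.2, hp.2]
  ring

open Classical in
/-- the same family as a family of subsets of the type of grid points -/
noncomputable def famV (n m : ℕ) : Finset (Finset (box n)) :=
  (powersetCard m (univ : Finset (box n))).filter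
    (fun S => NoThree (S.map (Function.Embedding.subtype _)))

open Classical in
lemma mem_famV {n m : ℕ} {S : Finset (box n)} : S ∈ famV n m ↔ S.card = m ∧
    NoThree (S.map (Function.Embedding.subtype _)) := by
  unfold famV
  rw [mem_filter, mem_powersetCard]
  simp only [subset_univ, true_and]

lemma card_famV (n m : ℕ) : (famV n m).card = (fam n m).card := by
  apply card_bij (fun S _ => S.map (Function.Embedding.subtype _))
  · intro S hS
    rw [mem_famV] at hS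
    rw [mem_fam, card_map]
    refine ⟨⟨?_, hS.1⟩, hS.2⟩
    intro p hp
    rw [mem_map] at hp
    obtain ⟨q, -, rfl⟩ := hp
    exact q.2
  · intro S _ S' _ h
    exact map_injective _ h
  · intro T hT
    rw [mem_fam] at hT
    have hmap : (T.subtype (fun p => p ∈ box n)).map (Function.Embedding.subtype _) = T :=
      subtype_map_of_mem (fun p hp => hT.1.1 hp)
    refine ⟨T.subtype (fun p => p ∈ box n), ?_, hmap⟩
    rw [mem_famV, hmap]
    refine ⟨?_, hT.2⟩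
    rw [← hT.1.2]
    conv_rhs => rw [← hmap]
    rw [card_map]

/-- label of a grid point with respect to a direction -/
def lab (n : ℕ) (p : (Σ _ : ℕ, ℕ) × Bool) (x : box n) : ℤ :=
  (vec p).2 * x.1.1 - (vec p).1 * x.1.2

lemma lab_sep {n N0 : ℕ} (hN0 : 1 ≤ N0) : ∀ θ ∈ dirSet N0 n, ∀ θ' ∈ dirSet N0 n,
    ∀ x y : box n, x ≠ y → lab n θ x = lab n θ y → lab n θ' x = lab n θ' y → θ = θ' := by
  intro θ hθ θ' hθ' x y hxy e1 e2
  apply vec_inj hθ hθ'
  exact adm_sep (vec_props hN0 hθ).1 (vec_props hN0 hθ').1 (fun h => hxy (Subtype.ext h)) e1 e2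

lemma lab_card {n N0 : ℕ} (hN0 : 1 ≤ N0) (hn : 1 ≤ n) : ∀ θ ∈ dirSet N0 n,
    ((univ.image (lab n θ)).card : ℝ) ≤ (θ.1.1 : ℝ) * n := by
  intro θ hθ
  have h1 := vec_props hN0 hθ
  have h2 := adm_labels hn h1.1 (box n) (fun p hp => mem_box.1 hp)
  rw [h1.2] at h2
  have h3 : (univ.image (lab n θ)) ⊆ (box n).image (fun p => (vec θ).2 * p.1 - (vec θ).1 * p.2) := by
    intro z hz
    rw [mem_image] at hz ⊢
    obtain ⟨x, -, rfl⟩ := hz
    exact ⟨x.1, x.2, rfl⟩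
  have h4 := card_le_card h3
  have h5 : (((univ.image (lab n θ)).card : ℕ) : ℤ) ≤ (θ.1.1 : ℤ) * n :=
    le_trans (by exact_mod_cast h4) h2
  exact_mod_cast h5

lemma lab_three {n N0 m : ℕ} (hN0 : 1 ≤ N0) : ∀ S ∈ famV n m, ∀ θ ∈ dirSet N0 n,
    ∀ x ∈ S, ∀ y ∈ S, ∀ z ∈ S, x ≠ y → x ≠ z → y ≠ z →
      lab n θ x = lab n θ y → lab n θ x = lab n θ z → False := by
  intro S hS θ hθ x hx y hy z hz hxy hxz hyz e1 e2
  refine (mem_famV.1 hS).2 x.1 (mem_map_of_mem _ hx) y.1 (mem_map_of_mem _ hy) z.1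
    (mem_map_of_mem _ hz) (fun h => hxy (Subtype.ext h)) (fun h => hxz (Subtype.ext h))
    (fun h => hyz (Subtype.ext h)) ?_
  exact adm_collinear (vec_props hN0 hθ).1 e1 e2

end Pool.N3
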