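import Mathlib

set_option autoImplicit false

namespace Pool.N3

open Finset

lemma inv_sq_diff {x y : ℝ} (hy : 0 < y) (hyx : y ≤ x) :
    2 * (x - y) / x ^ 3 ≤ 1 / y ^ 2 - 1 / x ^ 2 := by
  have hx : 0 < x := lt_of_lt_of_le hy hyx
  rw [div_sub_div _ _ (by positivity) (by positivity), div_le_div_iff₀ (by positivity) (by positivity)]
  have h1 : 0 ≤ (x - y) * (x ^ 2 * ((x + y) * x - 2 * y ^ 2)) := by
    apply mul_nonneg (by linarith)
    apply mul_nonneg (by positivity)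
    nlinarith
  nlinarith

/-- discrete version of `u' = - c τ u³` -/
theorem ode (u : ℕ → ℝ) (m n : ℕ) (c e ε : ℝ) (hn : 1 ≤ n) (hc0 : 0 < c)
    (he0 : 0 < e) (hε0 : 0 < ε) (hε1 : ε ≤ 1) (heε : e ≤ ε) (he1 : 5 * e / ε ^ 3 ≤ 1)
    (hsmall : 4 * c * (5 * e / ε ^ 3 + e) + 2 * c / n ≤ ε ^ 2 / 4)
    (hanti : ∀ t, t + 1 < m → u (t + 1) ≤ u t) (hu0 : u 0 ≤ 1)
    (hstar : ∀ t : ℕ, t + 2 < m → e ≤ u t →
      c * ((t : ℝ) + 1) / (n : ℝ) ^ 2 * (u t ^ 3 - 5 * e)
        ≤ (u (t + 1) - u (t + 2)) + e * (u t - u (t + 1)))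
    (τ : ℕ) (hτ : τ < m) (hτn : τ ≤ 2 * n) :
    u τ ≤ 1 / Real.sqrt (1 + c * ((τ : ℝ) / n) ^ 2) + ε := by
  have hnp : (0 : ℝ) < n := by exact_mod_cast hn
  by_contra hcon
  push Not at hcon
  set κ : ℝ := (τ : ℝ) / n with hκ
  have hκ0 : 0 ≤ κ := by positivity
  have hκ2 : κ ≤ 2 := by
    rw [hκ, div_le_iff₀ hnp]; exact_mod_cast hτn
  set f : ℝ := 1 / Real.sqrt (1 + c * κ ^ 2) with hf
  have hsq : 0 < Real.sqrt (1 + c * κ ^ 2) := Real.sqrt_pos.2 (by positivity)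
  have hf0 : 0 < f := by positivity
  have hsq1 : 1 ≤ Real.sqrt (1 + c * κ ^ 2) := by
    rw [Real.one_le_sqrt]; have : 0 ≤ c * κ ^ 2 := by positivity
    linarith
  have hf1 : f ≤ 1 := by
    rw [hf, div_le_one hsq]; exact hsq1
  have hff : 1 / f ^ 2 = 1 + c * κ ^ 2 := by
    rw [hf, div_pow, Real.sq_sqrt (by positivity)]
    field_simp
  have hmono : ∀ t k : ℕ, t + k < m → u (t + k) ≤ u t := by
    intro t k
    induction k with
    | zero => intro _; exact le_rfl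
    | succ k ih => intro hk; exact (hanti (t + k) hk).trans (ih (by omega))
  have hut : ∀ t : ℕ, t ≤ τ → u τ ≤ u t := by
    intro t ht
    have := hmono t (τ - t) (by omega)
    rwa [show t + (τ - t) = τ by omega] at this
  have huτε : ε < u τ := by linarith
  rcases Nat.eq_zero_or_pos τ with h0 | h0
  · subst h0
    have : f = 1 := by
      rw [hf, hκ]; simp
    linarith
  -- the potential
  set U : ℕ → ℝ := fun t => u (t + 1) + e * u t with hU
  set e1 : ℝ := 5 * e / ε ^ 3 with he1d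
  have he10 : 0 ≤ e1 := by positivity
  have hUpos : ∀ t : ℕ, t + 1 ≤ τ → 0 < U t := by
    intro t ht
    have h1 := hut (t + 1) ht
    have h2 := hut t (by omega)
    have h3 : 0 < e * u t := mul_pos he0 (by linarith)
    simp only [hU]; linarith
  have hUle : ∀ t : ℕ, t + 1 ≤ τ → U t ≤ (1 + e) * u t := by
    intro t ht
    have h1 := hanti t (by omega)
    simp only [hU]; linarith
  have hdec : ∀ t : ℕ, t + 2 ≤ τ →
      2 * c * ((t : ℝ) + 1) / (n : ℝ) ^ 2 * ((1 - e1) / (1 + e) ^ 3)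
        ≤ 1 / U (t + 1) ^ 2 - 1 / U t ^ 2 := by
    intro t ht
    have hu : u τ ≤ u t := hut t (by omega)
    have hstart := hstar t (by omega) (by linarith)
    have hU1 := hUpos (t + 1) (by omega)
    have hU0 := hUpos t (by omega)
    have hd : U t - U (t + 1) = (u (t + 1) - u (t + 2)) + e * (u t - u (t + 1)) := by
      simp only [hU]; ring
    have h1 : (1 - e1) * u t ^ 3 ≤ u t ^ 3 - 5 * e := by
      have h2 : ε ^ 3 ≤ u t ^ 3 := pow_le_pow_left₀ hε0.le (by linarith) 3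
      have h3 : e1 * ε ^ 3 = 5 * e := by rw [he1d]; field_simp
      have h4 : e1 * ε ^ 3 ≤ e1 * u t ^ 3 := mul_le_mul_of_nonneg_left h2 he10
      linarith
    have h2 : U t ^ 3 / (1 + e) ^ 3 ≤ u t ^ 3 := by
      rw [div_le_iff₀ (by positivity), ← mul_pow]
      apply pow_le_pow_left₀ hU0.le
      rw [mul_comm]; exact hUle t (by omega)
    have h3 : c * ((t : ℝ) + 1) / (n : ℝ) ^ 2 * ((1 - e1) * (U t ^ 3 / (1 + e) ^ 3))
        ≤ U t - U (t + 1) := by
      rw [hd]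
      refine le_trans ?_ hstart
      apply mul_le_mul_of_nonneg_left _ (by positivity)
      refine le_trans ?_ h1
      exact mul_le_mul_of_nonneg_left h2 (by linarith)
    have h4 : U (t + 1) ≤ U t := by
      have h5 : 0 ≤ c * ((t : ℝ) + 1) / (n : ℝ) ^ 2 * ((1 - e1) * (U t ^ 3 / (1 + e) ^ 3)) := by
        apply mul_nonneg (by positivity)
        apply mul_nonneg (by linarith) (by positivity)
      linarith
    refine le_trans ?_ (inv_sq_diff hU1 h4)
    rw [le_div_iff₀ (by positivity)]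
    have h5 : 2 * c * ((t : ℝ) + 1) / (n : ℝ) ^ 2 * ((1 - e1) / (1 + e) ^ 3) * U t ^ 3
        = 2 * (c * ((t : ℝ) + 1) / (n : ℝ) ^ 2 * ((1 - e1) * (U t ^ 3 / (1 + e) ^ 3))) := by
      ring
    rw [h5]
    linarith
  have hsum : ∀ k : ℕ, k + 1 ≤ τ →
      c * ((1 - e1) / (1 + e) ^ 3) * ((k : ℝ) * (k + 1)) / (n : ℝ) ^ 2 + 1 / U 0 ^ 2
        ≤ 1 / U k ^ 2 := by
    intro k
    induction k with
    | zero => intro _; simp
    | succ k ih =>
      intro hk
      have h1 := ih (by omega)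
      have h2 := hdec k (by omega)
      push_cast
      have h3 : c * ((1 - e1) / (1 + e) ^ 3) * (((k : ℝ) + 1) * (k + 1 + 1)) / (n : ℝ) ^ 2
          = c * ((1 - e1) / (1 + e) ^ 3) * ((k : ℝ) * (k + 1)) / (n : ℝ) ^ 2
            + 2 * c * ((k : ℝ) + 1) / (n : ℝ) ^ 2 * ((1 - e1) / (1 + e) ^ 3) := by
        ring
      rw [h3]
      linarith
  obtain ⟨σ, rfl⟩ : ∃ σ, τ = σ + 1 := ⟨τ - 1, by omega⟩
  have hfin := hsum σ le_rfl
  have hUσ := hUpos σ le_rfl
  have hU00 := hUpos 0 (by omega)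
  have huτ0 : 0 < u (σ + 1) := by linarith
  have h1 : (1 + e) * u (σ + 1) ≤ U σ := by
    have := hanti σ hτ
    have := mul_le_mul_of_nonneg_left this he0.le
    simp only [hU]; linarith
  have h2 : 1 / U σ ^ 2 ≤ 1 / ((1 + e) * u (σ + 1)) ^ 2 := by
    apply one_div_le_one_div_of_le (by positivity)
    apply pow_le_pow_left₀ (by positivity) h1
  have h3 : 1 / (1 + e) ^ 2 ≤ 1 / U 0 ^ 2 := by
    apply one_div_le_one_div_of_le (by positivity)
    apply pow_le_pow_left₀ hU00.le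
    have h4 := hUle 0 (by omega)
    have h5 : (1 + e) * u 0 ≤ (1 + e) * 1 := mul_le_mul_of_nonneg_left hu0 (by linarith)
    linarith
  have h4 : c * ((1 - e1) / (1 + e) ^ 3) * ((σ : ℝ) * (σ + 1)) / (n : ℝ) ^ 2 + 1 / (1 + e) ^ 2
      ≤ 1 / ((1 + e) * u (σ + 1)) ^ 2 := by linarith
  have h5 : c * ((1 - e1) / (1 + e)) * ((σ : ℝ) * (σ + 1) / (n : ℝ) ^ 2) + 1
      ≤ 1 / u (σ + 1) ^ 2 := by
    have h6 := mul_le_mul_of_nonneg_left h4 (show 0 ≤ (1 + e) ^ 2 by positivity)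
    have e2 : (1 + e) ^ 2 * (c * ((1 - e1) / (1 + e) ^ 3) * ((σ : ℝ) * (σ + 1)) / (n : ℝ) ^ 2
        + 1 / (1 + e) ^ 2) = c * ((1 - e1) / (1 + e)) * ((σ : ℝ) * (σ + 1) / (n : ℝ) ^ 2) + 1 := by
      field_simp
    have e3 : (1 + e) ^ 2 * (1 / ((1 + e) * u (σ + 1)) ^ 2) = 1 / u (σ + 1) ^ 2 := by
      field_simp
    rw [e2, e3] at h6
    exact h6
  have h6 : (σ : ℝ) * (σ + 1) / (n : ℝ) ^ 2 = κ ^ 2 - κ / n := by
    rw [hκ]; push_cast; field_simp; ring
  rw [h6] at h5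
  have h7 : 1 - (e1 + e) ≤ (1 - e1) / (1 + e) := by
    rw [le_div_iff₀ (by positivity)]
    nlinarith [mul_nonneg he0.le he10]
  have h8 : (1 - e1) / (1 + e) ≤ 1 := by
    rw [div_le_one (by positivity)]; linarith
  have h9 : 0 ≤ (1 - e1) / (1 + e) := div_nonneg (by linarith) (by positivity)
  -- lower bound
  have h10 : 1 + c * κ ^ 2 - (4 * c * (e1 + e) + 2 * c / n) ≤ 1 / u (σ + 1) ^ 2 := by
    refine le_trans ?_ h5
    have i1 : c * ((1 - e1) / (1 + e)) * (κ ^ 2 - κ / n)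
        = c * ((1 - e1) / (1 + e)) * κ ^ 2 - ((1 - e1) / (1 + e)) * (c * κ / n) := by ring
    rw [i1]
    have i2 : c * κ ^ 2 * (1 - (e1 + e)) ≤ c * κ ^ 2 * ((1 - e1) / (1 + e)) :=
      mul_le_mul_of_nonneg_left h7 (by positivity)
    have i3 : ((1 - e1) / (1 + e)) * (c * κ / n) ≤ 1 * (c * κ / n) :=
      mul_le_mul_of_nonneg_right h8 (by positivity)
    have i4 : c * κ / n ≤ 2 * c / n := by
      apply div_le_div_of_nonneg_right _ hnp.le
      have := mul_le_mul_of_nonneg_left hκ2 hc0.le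
      linarith
    have i5 : c * κ ^ 2 * (e1 + e) ≤ 4 * c * (e1 + e) := by
      have k1 : κ ^ 2 ≤ 4 := by
        have : κ ^ 2 ≤ 2 ^ 2 := pow_le_pow_left₀ hκ0 hκ2 2
        linarith
      have k2 : c * κ ^ 2 ≤ 4 * c := by
        have := mul_le_mul_of_nonneg_left k1 hc0.le
        linarith
      exact mul_le_mul_of_nonneg_right k2 (by linarith)
    linarith
  -- upper bound
  have h11 : 1 / u (σ + 1) ^ 2 < 1 / (f + ε) ^ 2 := by
    apply one_div_lt_one_div_of_lt (by positivity)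
    apply pow_lt_pow_left₀ hcon (by positivity) (by norm_num)
  have h12 : 1 / (f + ε) ^ 2 ≤ 1 / f ^ 2 - ε ^ 2 / 4 := by
    have j1 : 1 / f ^ 2 - 1 / (f + ε) ^ 2 = (2 * f * ε + ε ^ 2) / (f ^ 2 * (f + ε) ^ 2) := by
      field_simp
      ring
    have j2 : ε ^ 2 / 4 ≤ (2 * f * ε + ε ^ 2) / (f ^ 2 * (f + ε) ^ 2) := by
      rw [div_le_div_iff₀ (by norm_num) (by positivity)]
      have j3 : f ^ 2 ≤ 1 := by nlinarith
      have j4 : (f + ε) ^ 2 ≤ 4 := by nlinarith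
      have j5 : f ^ 2 * (f + ε) ^ 2 ≤ 1 * 4 := mul_le_mul j3 j4 (by positivity) (by norm_num)
      have j6 : 0 ≤ 2 * f * ε := by positivity
      nlinarith [sq_nonneg ε]
    linarith
  rw [hff] at h12
  linarith

/-- the antiderivative of `1/√(1+cx²)` -/
noncomputable def Gf (c x : ℝ) : ℝ := Real.arsinh (Real.sqrt c * x) / Real.sqrt c

lemma Gf_zero (c : ℝ) : Gf c 0 = 0 := by simp [Gf]

lemma Gf_hasDeriv {c : ℝ} (hc : 0 < c) (x : ℝ) :
    HasDerivAt (Gf c) (1 / Real.sqrt (1 + c * x ^ 2)) x := by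
  have hs : 0 < Real.sqrt c := Real.sqrt_pos.2 hc
  have h1 : HasDerivAt (fun x : ℝ => Real.sqrt c * x) (Real.sqrt c) x := by
    simpa using (hasDerivAt_id x).const_mul (Real.sqrt c)
  have h2 := (h1.arsinh).div_const (Real.sqrt c)
  have h3 : (Real.sqrt (1 + (Real.sqrt c * x) ^ 2))⁻¹ • Real.sqrt c / Real.sqrt c
      = 1 / Real.sqrt (1 + c * x ^ 2) := by
    rw [mul_pow, Real.sq_sqrt hc.le, smul_eq_mul, mul_div_assoc, div_self (ne_of_gt hs), mul_one,
      one_div]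
  rw [← h3]
  exact h2

lemma Gf_diff_ge {c : ℝ} (hc : 0 < c) {a b : ℝ} (ha : 0 ≤ a) (hab : a ≤ b) :
    1 / Real.sqrt (1 + c * b ^ 2) * (b - a) ≤ Gf c b - Gf c a := by
  apply (convex_Icc a b).mul_sub_le_image_sub_of_le_deriv
  · exact fun x _ => (Gf_hasDeriv hc x).continuousAt.continuousWithinAt
  · exact fun x _ => (Gf_hasDeriv hc x).differentiableAt.differentiableWithinAt
  · intro x hx
    rw [interior_Icc] at hx
    rw [(Gf_hasDeriv hc x).deriv]
    apply one_div_le_one_div_of_le (Real.sqrt_pos.2 (by positivity))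
    apply Real.sqrt_le_sqrt
    have h1 : x ^ 2 ≤ b ^ 2 := by
      apply pow_le_pow_left₀ (by linarith [hx.1]) hx.2.le
    nlinarith
  · exact Set.left_mem_Icc.2 hab
  · exact Set.right_mem_Icc.2 hab
  · exact hab

lemma sum_le_Gf {c : ℝ} (hc : 0 < c) (n : ℕ) (hn : 1 ≤ n) (m : ℕ) :
    ∑ t ∈ range m, 1 / Real.sqrt (1 + c * ((t : ℝ) / n) ^ 2) ≤ 1 + n * Gf c ((m : ℝ) / n) := by
  have hnp : (0 : ℝ) < n := by exact_mod_cast hn
  have key : ∀ k : ℕ, ∑ t ∈ range (k + 1), 1 / Real.sqrt (1 + c * ((t : ℝ) / n) ^ 2)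
      ≤ 1 + n * Gf c ((k : ℝ) / n) := by
    intro k
    induction k with
    | zero => simp [Gf_zero]
    | succ k ih =>
      rw [sum_range_succ]
      have h1 := Gf_diff_ge hc (a := (k : ℝ) / n) (b := ((k + 1 : ℕ) : ℝ) / n) (by positivity)
        (by apply div_le_div_of_nonneg_right _ hnp.le; push_cast; linarith)
      have h2 : ((k + 1 : ℕ) : ℝ) / n - (k : ℝ) / n = 1 / n := by
        push_cast; field_simp; ring
      rw [h2] at h1
      have h3 := mul_le_mul_of_nonneg_left h1 hnp.le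
      have h4 : (n : ℝ) * (1 / Real.sqrt (1 + c * (((k + 1 : ℕ) : ℝ) / n) ^ 2) * (1 / n))
          = 1 / Real.sqrt (1 + c * (((k + 1 : ℕ) : ℝ) / n) ^ 2) := by
        field_simp
      rw [h4] at h3
      linarith
  rcases Nat.eq_zero_or_pos m with h | h
  · subst h; simp [Gf_zero]
  · obtain ⟨k, rfl⟩ : ∃ k, m = k + 1 := ⟨m - 1, by omega⟩
    refine (key k).trans ?_
    have h1 := Gf_diff_ge hc (a := (k : ℝ) / n) (b := ((k + 1 : ℕ) : ℝ) / n) (by positivity)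
      (by apply div_le_div_of_nonneg_right _ hnp.le; push_cast; linarith)
    have h2 : 0 ≤ 1 / Real.sqrt (1 + c * (((k + 1 : ℕ) : ℝ) / n) ^ 2)
        * (((k + 1 : ℕ) : ℝ) / n - (k : ℝ) / n) := by
      apply mul_nonneg (by positivity)
      push_cast
      have : ((k : ℝ) + 1) / n - (k : ℝ) / n = 1 / n := by field_simp; ring
      rw [this]; positivity
    have h3 : Gf c ((k : ℝ) / n) ≤ Gf c (((k + 1 : ℕ) : ℝ) / n) := by linarith
    have h4 := mul_le_mul_of_nonneg_left h3 hnp.le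
    linarith

end Pool.N3
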