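import Mathlib
import Pool.Agent.Helper77.N3.Dir

set_option autoImplicit false
set_option linter.unusedSectionVars false

namespace Pool.N3

open Finset

variable {V : Type*} [Fintype V] [DecidableEq V] {ι : Type*} [DecidableEq ι]

lemma h0_of_mu {F : Finset (Finset V)} {m : ℕ} (R : Finset V) (x y : V)
    (hxy : mu F m R x * mu F m R y = 0) : mu F m R x * mu F m (insert x R) y = 0 := by
  rcases mul_eq_zero.1 hxy with h1 | h1
  · rw [h1, zero_mul]
  · rw [mu_swap, h1, zero_mul]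

/-- relative entropy dominates the mass of the forbidden pairs -/
theorem dk_ge {F : Finset (Finset V)} {m : ℕ} (hF : ∀ S ∈ F, S.card = m)
    (T : Finset ι) (L : ι → V → ℤ)
    (hsep : ∀ θ ∈ T, ∀ θ' ∈ T, ∀ x y : V, x ≠ y → L θ x = L θ y → L θ' x = L θ' y → θ = θ')
    (h3 : ∀ S ∈ F, ∀ θ ∈ T, ∀ x ∈ S, ∀ y ∈ S, ∀ z ∈ S, x ≠ y → x ≠ z → y ≠ z →
      L θ x = L θ y → L θ x = L θ z → False)
    {R : Finset V} (hm : R.card + 1 < m) :
    ∑ r ∈ R, Psi T L r (mu F m R) ≤ dk F m R := by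
  classical
  have hmu0 := fun x => mu_nonneg hF R x
  have hle : ∀ x y : V, ∑ r ∈ R, ∑ θ ∈ T,
      (if x ≠ y ∧ L θ x = L θ r ∧ L θ y = L θ r then mu F m R x * mu F m R y else 0)
      ≤ phi (mu F m R x * mu F m (insert x R) y) (mu F m R x * mu F m R y) := by
    intro x y
    have hphi : 0 ≤ phi (mu F m R x * mu F m (insert x R) y) (mu F m R x * mu F m R y) :=
      phi_nonneg (mul_nonneg (hmu0 x) (mu_nonneg hF _ y)) (mul_nonneg (hmu0 x) (hmu0 y))
        (h0_of_mu R x y)
    by_cases hz : mu F m R x * mu F m R y = 0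
    · rw [hz] at hphi ⊢
      simpa using hphi
    · have hx : 0 < mu F m R x := lt_of_le_of_ne (hmu0 x) (Ne.symm (left_ne_zero_of_mul hz))
      have hy : 0 < mu F m R y := lt_of_le_of_ne (hmu0 y) (Ne.symm (right_ne_zero_of_mul hz))
      obtain ⟨hxR, hxW⟩ := (mu_pos_iff (by omega) x).1 hx
      obtain ⟨hyR, hyW⟩ := (mu_pos_iff (by omega) y).1 hy
      by_cases hex : ∃ r ∈ R, ∃ θ ∈ T, x ≠ y ∧ L θ x = L θ r ∧ L θ y = L θ r
      · obtain ⟨r, hr, θ, hθ, hxy, h1, h2⟩ := hex
        -- uniqueness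
        have huniq : ∀ r' ∈ R, ∀ θ' ∈ T, (x ≠ y ∧ L θ' x = L θ' r' ∧ L θ' y = L θ' r') →
            r' = r ∧ θ' = θ := by
          intro r' hr' θ' hθ' ⟨_, h4, h5⟩
          have e1 : θ' = θ := hsep θ' hθ' θ hθ x y hxy (h4.trans h5.symm) (h1.trans h2.symm)
          subst e1
          refine ⟨?_, rfl⟩
          by_contra hne
          obtain ⟨S, hS, hsub⟩ := (W_pos_iff F _).1 hxW
          exact h3 S hS θ' hθ' x (hsub (mem_insert_self _ _)) r' (hsub (mem_insert_of_mem hr'))
            r (hsub (mem_insert_of_mem hr)) (fun h => hxR (h ▸ hr')) (fun h => hxR (h ▸ hr)) hne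
            h4 h1
        have hsum : ∑ r ∈ R, ∑ θ ∈ T,
            (if x ≠ y ∧ L θ x = L θ r ∧ L θ y = L θ r then mu F m R x * mu F m R y else 0)
            = mu F m R x * mu F m R y := by
          rw [sum_eq_single r, sum_eq_single θ, if_pos ⟨hxy, h1, h2⟩]
          · intro θ' hθ' hne
            rw [if_neg]
            intro h; exact hne (huniq r hr θ' hθ' h).2
          · intro h; exact absurd hθ h
          · intro r' hr' hne
            apply sum_eq_zero
            intro θ' hθ'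
            rw [if_neg]
            intro h; exact hne (huniq r' hr' θ' hθ' h).1
          · intro h; exact absurd hr h
        rw [hsum]
        -- the pair law vanishes
        have hzero : mu F m (insert x R) y = 0 := by
          by_contra hne
          have hpos : 0 < mu F m (insert x R) y :=
            lt_of_le_of_ne (mu_nonneg hF _ y) (Ne.symm hne)
          obtain ⟨-, hW⟩ := (mu_pos_iff (by rw [card_insert_of_notMem hxR]; omega) y).1 hpos
          obtain ⟨S, hS, hsub⟩ := (W_pos_iff F _).1 hW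
          exact h3 S hS θ hθ x (hsub (mem_insert_of_mem (mem_insert_self _ _)))
            y (hsub (mem_insert_self _ _))
            r (hsub (mem_insert_of_mem (mem_insert_of_mem hr))) hxy
            (fun h => hxR (h ▸ hr)) (fun h => hyR (h ▸ hr)) (h1.trans h2.symm) h1
        rw [hzero, mul_zero]
        unfold phi
        simp
      · have hsum : ∑ r ∈ R, ∑ θ ∈ T,
            (if x ≠ y ∧ L θ x = L θ r ∧ L θ y = L θ r then mu F m R x * mu F m R y else 0) = 0 := by
          apply sum_eq_zero; intro r hr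
          apply sum_eq_zero; intro θ hθ
          rw [if_neg]
          intro h; exact hex ⟨r, hr, θ, hθ, h⟩
        rw [hsum]; exact hphi
  unfold dk Psi
  have e1 : ∑ r ∈ R, ∑ θ ∈ T, ∑ x, ∑ y,
      (if x ≠ y ∧ L θ x = L θ r ∧ L θ y = L θ r then mu F m R x * mu F m R y else 0)
      = ∑ x, ∑ y, ∑ r ∈ R, ∑ θ ∈ T,
      (if x ≠ y ∧ L θ x = L θ r ∧ L θ y = L θ r then mu F m R x * mu F m R y else 0) := by
    have e2 : ∀ r ∈ R, ∑ θ ∈ T, ∑ x, ∑ y,
      (if x ≠ y ∧ L θ x = L θ r ∧ L θ y = L θ r then mu F m R x * mu F m R y else 0)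
      = ∑ x, ∑ y, ∑ θ ∈ T,
      (if x ≠ y ∧ L θ x = L θ r ∧ L θ y = L θ r then mu F m R x * mu F m R y else 0) := by
      intro r _
      rw [sum_comm]
      apply sum_congr rfl
      intro x _
      rw [sum_comm]
    rw [sum_congr rfl e2, sum_comm]
    apply sum_congr rfl
    intro x _
    rw [sum_comm]
  rw [e1]
  exact sum_le_sum (fun x _ => sum_le_sum (fun y _ => hle x y))

/-- the entropy drop is nonnegative -/
theorem h_anti {F : Finset (Finset V)} {m : ℕ} (hF : ∀ S ∈ F, S.card = m) {t : ℕ}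
    (ht : t + 1 < m) : h F m (t + 1) ≤ h F m t := by
  have h1 := step_eq hF ht
  have h2 : 0 ≤ ∑ R ∈ powersetCard t univ, pr F m R * dk F m R := by
    refine sum_nonneg (fun R _ => mul_nonneg (pr_nonneg F m R) ?_)
    refine sum_nonneg (fun x _ => sum_nonneg (fun y _ => ?_))
    exact phi_nonneg (mul_nonneg (mu_nonneg hF _ x) (mu_nonneg hF _ y))
      (mul_nonneg (mu_nonneg hF _ x) (mu_nonneg hF _ y)) (h0_of_mu R x y)
  linarith

/-- the main differential inequality for the entropies -/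
theorem star2 {C : ℝ} (hC0 : 0 ≤ C)
    (hC : ∀ y : ℕ, 1 ≤ y → |St y - 6 / Real.pi ^ 2 * Real.log y| ≤ C)
    {F : Finset (Finset V)} {m : ℕ} (hF : ∀ S ∈ F, S.card = m) (hne : F.Nonempty)
    (L : ((Σ _ : ℕ, ℕ) × Bool) → V → ℤ) (n N0 : ℕ) (hN0 : 1 ≤ N0) (hN0n : N0 ≤ n)
    (hsep : ∀ θ ∈ dirSet N0 n, ∀ θ' ∈ dirSet N0 n, ∀ x y : V, x ≠ y →
      L θ x = L θ y → L θ' x = L θ' y → θ = θ')
    (hV : (Fintype.card V : ℝ) ≤ (n : ℝ) ^ 2)
    (s η β : ℝ) (hη : 0 < η) (hη1 : η ≤ 3)
    (hs0 : 0 < s) (hs1 : s ≤ 1) (hβ0 : 0 ≤ β) (hβ1 : β ≤ 1) (hηβ : η ≤ 2 * β)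
    (hL : ∀ θ ∈ dirSet N0 n, ((univ.image (L θ)).card : ℝ) ≤ (θ.1.1 : ℝ) * n)
    (h3 : ∀ S ∈ F, ∀ θ ∈ dirSet N0 n, ∀ x ∈ S, ∀ y ∈ S, ∀ z ∈ S, x ≠ y → x ≠ z → y ≠ z →
      L θ x = L θ y → L θ x = L θ z → False)
    {t : ℕ} (ht : t + 2 < m) :
    ((t : ℝ) + 1) * (2 / (n : ℝ) ^ 2 * (3 * β ^ 2 * (6 / Real.pi ^ 2 * (h F m t - Real.log n
          - Real.log (3 / η) - 1) - (C + St N0 + 1))
        - (2 * β ^ 3 + 2 * s + 2 * η) * (6 / Real.pi ^ 2 * Real.log n + C))
      - 2 / (s * (N0 * n)) * (h F m t - h F m (t + 1)))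
      ≤ h F m (t + 1) - h F m (t + 2) := by
  set T := dirSet N0 n with hT
  have hstep := step_eq hF (t := t + 1) (by omega)
  have hswap := swap_sum (F := F) (m := m) (t := t) (by omega)
    (fun R r => Psi T L r (mu F m (insert r R)))
  have hge : ∑ R ∈ powersetCard (t + 1) univ, pr F m R *
      ∑ x ∈ R, Psi T L x (mu F m (insert x (R.erase x)))
      ≤ ∑ R ∈ powersetCard (t + 1) univ, pr F m R * dk F m R := by
    apply sum_le_sum
    intro R hR
    rw [mem_powersetCard] at hR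
    apply mul_le_mul_of_nonneg_left _ (pr_nonneg F m R)
    refine le_trans (le_of_eq ?_) (dk_ge hF T L hsep h3 (by rw [hR.2]; omega))
    apply sum_congr rfl
    intro x hx
    rw [insert_erase hx]
  have hstep0 := step_eq hF (t := t) (by omega)
  set α := 6 / Real.pi ^ 2 with hα
  set c := 2 / (n : ℝ) ^ 2 with hc
  set D := 2 / (s * (N0 * (n : ℝ))) with hD
  have hloc : ∀ R ∈ powersetCard t (univ : Finset V),
      pr F m R * (c * (3 * β ^ 2 * (α * (ent (mu F m R) - Real.log n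
          - Real.log (3 / η) - 1) - (C + St N0 + 1))
        - (2 * β ^ 3 + 2 * s + 2 * η) * (α * Real.log n + C)) - D * dk F m R)
      ≤ pr F m R * ∑ x, mu F m R x * Psi T L x (mu F m (insert x R)) := by
    intro R hR
    rw [mem_powersetCard] at hR
    by_cases hW : W F R = 0
    · unfold pr; rw [hW]; simp
    · apply mul_le_mul_of_nonneg_left _ (pr_nonneg F m R)
      exact local2 hC0 hC L (μ := mu F m R) (ν := fun r x => mu F m (insert r R) x)
        (fun x => mu_nonneg hF R x) (sum_mu hF ((W_ne_zero_iff F R).1 hW) (by omega))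
        (fun r x => mu_nonneg hF _ x) (fun r x => h0_of_mu R r x) n N0 hN0 hN0n hsep hV
        s η β hη hη1 hs0 hs1 hβ0 hβ1 hηβ hL
  have hsumloc := sum_le_sum hloc
  rw [hswap] at hsumloc
  have hpr := sum_pr hF hne t (by omega)
  have e1 : ∑ R ∈ powersetCard t (univ : Finset V),
      pr F m R * (c * (3 * β ^ 2 * (α * (ent (mu F m R) - Real.log n
          - Real.log (3 / η) - 1) - (C + St N0 + 1))
        - (2 * β ^ 3 + 2 * s + 2 * η) * (α * Real.log n + C)) - D * dk F m R)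
      = c * (3 * β ^ 2 * (α * (h F m t - Real.log n
          - Real.log (3 / η) - 1) - (C + St N0 + 1))
        - (2 * β ^ 3 + 2 * s + 2 * η) * (α * Real.log n + C)) - D * (h F m t - h F m (t + 1)) := by
    rw [← hstep0]
    have e2 : ∀ R ∈ powersetCard t (univ : Finset V),
      pr F m R * (c * (3 * β ^ 2 * (α * (ent (mu F m R) - Real.log n
          - Real.log (3 / η) - 1) - (C + St N0 + 1))
        - (2 * β ^ 3 + 2 * s + 2 * η) * (α * Real.log n + C)) - D * dk F m R)
      = c * (3 * β ^ 2 * α) * (pr F m R * ent (mu F m R))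
        + (c * (3 * β ^ 2 * (α * (0 - Real.log n
          - Real.log (3 / η) - 1) - (C + St N0 + 1))
        - (2 * β ^ 3 + 2 * s + 2 * η) * (α * Real.log n + C))) * pr F m R
        - D * (pr F m R * dk F m R) := by
      intro R _; ring
    rw [sum_congr rfl e2, sum_sub_distrib, sum_add_distrib, ← mul_sum, ← mul_sum, ← mul_sum, hpr]
    unfold h
    ring
  rw [e1] at hsumloc
  have ht0 : (0 : ℝ) < (t : ℝ) + 1 := by positivity
  have h5 : ((t : ℝ) + 1) * (c * (3 * β ^ 2 * (α * (h F m t - Real.log n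
          - Real.log (3 / η) - 1) - (C + St N0 + 1))
        - (2 * β ^ 3 + 2 * s + 2 * η) * (α * Real.log n + C)) - D * (h F m t - h F m (t + 1)))
      ≤ ∑ R ∈ powersetCard (t + 1) univ, pr F m R *
        ∑ x ∈ R, Psi T L x (mu F m (insert x (R.erase x))) := by
    have h6 := mul_le_mul_of_nonneg_left hsumloc ht0.le
    refine h6.trans (le_of_eq ?_)
    rw [← mul_assoc]
    have : ((t : ℝ) + 1) * (1 / ((t : ℝ) + 1)) = 1 := by field_simp
    rw [this, one_mul]
  have h7 : t + 1 + 1 = t + 2 := rfl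
  rw [h7] at hstep
  linarith

end Pool.N3
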