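import Mathlib
import Pool.Agent.Helper77.N3.Star2
import Pool.Agent.Helper77.N3.Ode
import Pool.Agent.Helper77.N3.Fam

set_option autoImplicit false

namespace Pool.N3

open Finset

/-- drop of the conditional entropies for no-three-in-line sets -/
theorem ent_drop (ε : ℝ) (hε : 0 < ε) (hε1 : ε ≤ 1) : ∃ n0 : ℕ, 1 ≤ n0 ∧ ∀ n : ℕ, n0 ≤ n →
    ∀ m : ℕ, (fam n m).Nonempty → ∀ τ : ℕ, τ < m →
    h (famV n m) m τ ≤
      (1 + 1 / Real.sqrt (1 + 12 / Real.pi ^ 2 * ((τ : ℝ) / n) ^ 2) + ε) * Real.log n := by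
  obtain ⟨C, hC0, hC⟩ := St_bound
  have hpi := Real.pi_gt_three
  set α : ℝ := 6 / Real.pi ^ 2 with hα
  have hα0 : 0 < α := by positivity
  have hα1 : α ≤ 1 := by
    rw [hα, div_le_one (by positivity)]; nlinarith
  have hc2 : 12 / Real.pi ^ 2 = 2 * α := by rw [hα]; ring
  rw [hc2]
  set e : ℝ := ε ^ 5 / 1000 with he
  have he0 : 0 < e := by positivity
  have hε2 : ε ^ 2 ≤ 1 := pow_le_one₀ hε.le hε1
  have hε4 : ε ^ 4 ≤ 1 := pow_le_one₀ hε.le hε1
  have heε : e ≤ ε := by
    have : ε ^ 5 = ε ^ 4 * ε := by ring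
    rw [he, this]
    nlinarith
  have he1 : e ≤ 1 / 1000 := by
    have : ε ^ 5 ≤ 1 := pow_le_one₀ hε.le hε1
    rw [he]; linarith
  have he3 : 5 * e / ε ^ 3 = ε ^ 2 / 200 := by
    rw [he]; field_simp; norm_num
  obtain ⟨N0', hN0'⟩ := exists_nat_ge (4 / e ^ 2)
  set N0 := N0' + 1 with hN0
  have hN01 : 1 ≤ N0 := by omega
  have hN0p : 4 / e ^ 2 ≤ (N0 : ℝ) := by
    rw [hN0]; push_cast; linarith
  set M : ℝ := 3 * (α * (Real.log (3 / e) + 1) + (C + St N0 + 1)) + 6 * C with hM
  have hM0 : 0 < M := by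
    have h1 : 0 ≤ Real.log (3 / e) := Real.log_nonneg (by rw [le_div_iff₀ he0]; linarith)
    have h2 := St_nonneg N0
    have h3 : 0 ≤ α * (Real.log (3 / e) + 1) := by positivity
    rw [hM]; linarith
  have hlim : Filter.Tendsto (fun n : ℕ => Real.log (n : ℝ)) Filter.atTop Filter.atTop :=
    Real.tendsto_log_atTop.comp tendsto_natCast_atTop_atTop
  obtain ⟨n1, hn1⟩ := Filter.eventually_atTop.1 (hlim.eventually_ge_atTop (M / (e * α)))
  obtain ⟨n2, hn2⟩ := exists_nat_ge (32 / ε ^ 2)
  refine ⟨max (max n1 n2) N0, le_trans hN01 (le_max_right _ _), ?_⟩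
  intro n hn m hne τ hτ
  have hn1' := hn1 n (le_trans (le_trans (le_max_left _ _) (le_max_left _ _)) hn)
  have hn2' : (32 / ε ^ 2 : ℝ) ≤ n := hn2.trans (by
    exact_mod_cast le_trans (le_trans (le_max_right _ _) (le_max_left _ _)) hn)
  have hN0n : N0 ≤ n := le_trans (le_max_right _ _) hn
  have hn3 : 1 ≤ n := hN01.trans hN0n
  have hnp : (0 : ℝ) < n := by exact_mod_cast hn3
  set l := Real.log (n : ℝ) with hl
  have hlM : M ≤ e * α * l := by
    rw [div_le_iff₀ (by positivity)] at hn1'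
    linarith
  have hlpos : 0 < l := by
    by_contra hneg
    push Not at hneg
    have : e * α * l ≤ 0 := mul_nonpos_of_nonneg_of_nonpos (by positivity) hneg
    linarith
  have hFm : ∀ S ∈ famV n m, S.card = m := fun S hS => (mem_famV.1 hS).1
  have hFne : (famV n m).Nonempty := by
    rw [← card_pos, card_famV, card_pos]; exact hne
  have hm2 : m ≤ 2 * n := by
    obtain ⟨S, hS⟩ := hne
    exact card_le_two_mul hS
  have hcardV : Fintype.card (box n) = n ^ 2 := by
    rw [Fintype.card_coe, card_box]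
  have hstar := fun (t : ℕ) (ht : t + 2 < m) (β : ℝ) (hβ0 : 0 ≤ β) (hβ1 : β ≤ 1)
      (hβe : e ≤ 2 * β) => star2 hC0 hC (F := famV n m) hFm hFne (lab n) n N0 hN01 hN0n
    (lab_sep hN01) (by rw [hcardV]; push_cast; exact le_rfl) e e β he0 (by linarith) he0
    (by linarith) hβ0 hβ1 hβe (lab_card hN01 hn3) (lab_three hN01) (t := t) ht
  set g := h (famV n m) m with hg
  have hanti : ∀ t, t + 1 < m → g (t + 1) ≤ g t := fun t ht => h_anti hFm ht
  have hg0 : g 0 ≤ 2 * l := by
    have : Nonempty (box n) := by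
      rw [← Fintype.card_pos_iff, hcardV]; positivity
    have h1 := h_zero_le (F := famV n m) hFm hFne (by omega)
    rw [hcardV] at h1
    push_cast at h1
    rw [Real.log_pow] at h1
    push_cast at h1
    exact h1
  have hgt : ∀ t, t < m → g t ≤ 2 * l := by
    intro t
    induction t with
    | zero => intro _; exact hg0
    | succ t ih => intro ht; exact (hanti t ht).trans (ih (by omega))
  -- the normalised entropies
  set u : ℕ → ℝ := fun t => g t / l - 1 with hu
  have hgu : ∀ t, g t = (1 + u t) * l := by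
    intro t; simp only [hu]; field_simp; ring
  have hode := ode u m n (2 * α) e ε hn3 (by positivity) he0 hε hε1 heε
    (by rw [he3]; linarith)
    (by
      rw [he3]
      have h1 : 2 * (2 * α) / n ≤ ε ^ 2 / 8 := by
        rw [div_le_iff₀ hnp]
        rw [div_le_iff₀ (by positivity)] at hn2'
        nlinarith
      have h2 : e ≤ ε ^ 2 / 1000 := by
        have : ε ^ 5 = ε ^ 3 * ε ^ 2 := by ring
        have h3 : ε ^ 3 ≤ 1 := pow_le_one₀ hε.le hε1
        rw [he, this]
        nlinarith [sq_nonneg ε]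
      nlinarith [sq_nonneg ε])
    (by
      intro t ht
      have := hanti t ht
      simp only [hu]
      have := div_le_div_of_nonneg_right this hlpos.le
      linarith)
    (by
      simp only [hu]
      have : g 0 / l ≤ 2 := by rw [div_le_iff₀ hlpos]; exact hg0
      linarith)
    (by
      intro t ht hut
      have hu1 : u t ≤ 1 := by
        have := hgt t (by omega)
        simp only [hu]
        have : g t / l ≤ 2 := by rw [div_le_iff₀ hlpos]; exact this
        linarith
      have h1 := hstar t ht (u t) (by linarith) hu1 (by linarith)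
      rw [← hl] at h1
      have hX : 0 ≤ g t - g (t + 1) := by have := hanti t (by omega); linarith
      have ht1 : (t : ℝ) + 1 ≤ 2 * n := by
        have : t + 1 ≤ 2 * n := by omega
        exact_mod_cast this
      have ht0 : (0 : ℝ) < (t : ℝ) + 1 := by positivity
      have h2 : ((t : ℝ) + 1) * (2 / (e * (N0 * n)) * (g t - g (t + 1)))
          ≤ e * (g t - g (t + 1)) := by
        rw [← mul_assoc]
        apply mul_le_mul_of_nonneg_right _ hX
        have hN0pos : (0 : ℝ) < N0 := by exact_mod_cast hN01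
        rw [mul_div_assoc', div_le_iff₀ (by positivity)]
        have h3 : 4 ≤ e ^ 2 * N0 := by
          rw [div_le_iff₀ (by positivity)] at hN0p
          linarith
        have h4 : ((t : ℝ) + 1) * 2 ≤ 4 * n := by linarith
        have h5 : 4 * (n : ℝ) ≤ (e ^ 2 * N0) * n := mul_le_mul_of_nonneg_right h3 hnp.le
        calc ((t : ℝ) + 1) * 2 ≤ 4 * n := h4
          _ ≤ (e ^ 2 * N0) * n := h5
          _ = e * (e * (N0 * n)) := by ring
      have hu0 : 0 ≤ u t := by linarith
      have h6 : α * l * (u t ^ 3 - 5 * e) ≤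
          3 * u t ^ 2 * (α * (g t - l - Real.log (3 / e) - 1) - (C + St N0 + 1))
          - (2 * u t ^ 3 + 2 * e + 2 * e) * (α * l + C) := by
        rw [hgu t]
        have i0 : u t ^ 2 ≤ 1 := pow_le_one₀ hu0 hu1
        have i0' : u t ^ 3 ≤ 1 := pow_le_one₀ hu0 hu1
        have i1 : 0 ≤ α * (Real.log (3 / e) + 1) + (C + St N0 + 1) := by
          have h1 : 0 ≤ Real.log (3 / e) := Real.log_nonneg (by rw [le_div_iff₀ he0]; linarith)
          have h2 := St_nonneg N0
          have h3 : 0 ≤ α * (Real.log (3 / e) + 1) := by positivity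
          linarith
        have i2 : 3 * u t ^ 2 * (α * (Real.log (3 / e) + 1) + (C + St N0 + 1))
            ≤ 3 * (α * (Real.log (3 / e) + 1) + (C + St N0 + 1)) := by
          nlinarith
        have i3 : (2 * u t ^ 3 + 2 * e + 2 * e) * C ≤ 6 * C := by
          nlinarith
        have i4 : 3 * u t ^ 2 * (α * ((1 + u t) * l - l - Real.log (3 / e) - 1) - (C + St N0 + 1))
            - (2 * u t ^ 3 + 2 * e + 2 * e) * (α * l + C)
            = α * l * (u t ^ 3 - 4 * e)
              - 3 * u t ^ 2 * (α * (Real.log (3 / e) + 1) + (C + St N0 + 1))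
              - (2 * u t ^ 3 + 2 * e + 2 * e) * C := by ring
        rw [i4]
        nlinarith
      have h7 : ((t : ℝ) + 1) * (2 / (n : ℝ) ^ 2 * (α * l * (u t ^ 3 - 5 * e)))
          ≤ ((t : ℝ) + 1) * (2 / (n : ℝ) ^ 2 *
            (3 * u t ^ 2 * (α * (g t - l - Real.log (3 / e) - 1) - (C + St N0 + 1))
            - (2 * u t ^ 3 + 2 * e + 2 * e) * (α * l + C))) := by
        apply mul_le_mul_of_nonneg_left _ ht0.le
        apply mul_le_mul_of_nonneg_left h6 (by positivity)
      rw [mul_sub] at h1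
      have h8 : ((t : ℝ) + 1) * (2 / (n : ℝ) ^ 2 * (α * l * (u t ^ 3 - 5 * e)))
          ≤ (g (t + 1) - g (t + 2)) + e * (g t - g (t + 1)) := by linarith
      have h9 := div_le_div_of_nonneg_right h8 hlpos.le
      have e1 : ((t : ℝ) + 1) * (2 / (n : ℝ) ^ 2 * (α * l * (u t ^ 3 - 5 * e))) / l
          = 2 * α * ((t : ℝ) + 1) / (n : ℝ) ^ 2 * (u t ^ 3 - 5 * e) := by
        field_simp
      have e2 : ((g (t + 1) - g (t + 2)) + e * (g t - g (t + 1))) / l
          = (u (t + 1) - u (t + 2)) + e * (u t - u (t + 1)) := by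
        simp only [hu]; field_simp; ring
      rw [e1, e2] at h9
      exact h9)
    τ hτ (by omega)
  rw [hgu τ]
  apply mul_le_mul_of_nonneg_right _ hlpos.le
  linarith

/-- **Counting no-three-in-line sets.** -/
theorem log_card_le2 (ε : ℝ) (hε : 0 < ε) : ∃ n0 : ℕ, 1 ≤ n0 ∧ ∀ n : ℕ, n0 ≤ n → ∀ m : ℕ,
    (fam n m).Nonempty →
    Real.log ((fam n m).card : ℝ)
      ≤ n * (Gf (12 / Real.pi ^ 2) ((m : ℝ) / n) + ε) * Real.log n := by
  set δ : ℝ := min (ε / 4) 1 with hδ
  have hδ0 : 0 < δ := lt_min (by positivity) (by norm_num)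
  have hδε : δ ≤ ε / 4 := min_le_left _ _
  obtain ⟨n0, hn0, hmain⟩ := ent_drop δ hδ0 (min_le_right _ _)
  have hlim : Filter.Tendsto (fun n : ℕ => Real.log (n : ℝ)) Filter.atTop Filter.atTop :=
    Real.tendsto_log_atTop.comp tendsto_natCast_atTop_atTop
  obtain ⟨n1, hn1⟩ := Filter.eventually_atTop.1 (hlim.eventually_ge_atTop (1 / δ))
  obtain ⟨n2, hn2⟩ := exists_nat_ge (1 / δ)
  refine ⟨max n0 (max n1 n2), hn0.trans (le_max_left _ _), ?_⟩
  intro n hn m hne
  have h1 := hmain n ((le_max_left _ _).trans hn) m hne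
  have hn1' : 1 / δ ≤ Real.log (n : ℝ) :=
    hn1 n (le_trans (le_trans (le_max_left _ _) (le_max_right _ _)) hn)
  have hn2' : (1 / δ : ℝ) ≤ n := hn2.trans (by
    exact_mod_cast le_trans (le_trans (le_max_right _ _) (le_max_right _ _)) hn)
  have hn3 : 1 ≤ n := hn0.trans ((le_max_left _ _).trans hn)
  have hnp : (0 : ℝ) < n := by exact_mod_cast hn3
  have hn1r : (1 : ℝ) ≤ n := by exact_mod_cast hn3
  have hFm : ∀ S ∈ famV n m, S.card = m := fun S hS => (mem_famV.1 hS).1
  have hFne : (famV n m).Nonempty := by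
    rw [← card_pos, card_famV, card_pos]; exact hne
  have hm2 : (m : ℝ) ≤ 2 * n := by
    obtain ⟨S, hS⟩ := hne
    exact_mod_cast card_le_two_mul hS
  have hpi := Real.pi_pos
  have hc : 0 < 12 / Real.pi ^ 2 := by positivity
  set l := Real.log (n : ℝ) with hl
  have hl0 : 0 < l := lt_of_lt_of_le (by positivity) hn1'
  have hsum := sum_h hFm hFne
  have h2 := sum_le_sum (fun t ht => h1 t (mem_range.1 ht))
  rw [hsum, card_famV, ← sum_mul] at h2
  have h3 : ∑ t ∈ range m, (1 + 1 / Real.sqrt (1 + 12 / Real.pi ^ 2 * ((t : ℝ) / n) ^ 2) + δ)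
      ≤ m + (1 + n * Gf (12 / Real.pi ^ 2) ((m : ℝ) / n)) + δ * m := by
    have h4 := sum_le_Gf hc n hn3 m
    simp only [sum_add_distrib, sum_const, card_range, nsmul_eq_mul]
    linarith
  have h4 := mul_le_mul_of_nonneg_right h3 hl0.le
  -- factorial
  have h5 : (m : ℝ) * l - n ≤ Real.log (m.factorial : ℝ) := by
    have h6 := Real.pow_div_factorial_le_exp (n : ℝ) hnp.le m
    have hfac : (0 : ℝ) < (m.factorial : ℝ) := by exact_mod_cast Nat.factorial_pos m
    have h7 := Real.log_le_log (by positivity) h6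
    rw [Real.log_exp, Real.log_div (by positivity) (ne_of_gt hfac), Real.log_pow] at h7
    linarith
  have h6 : 1 ≤ δ * n := by rw [div_le_iff₀ hδ0] at hn2'; linarith
  have h7 : 1 ≤ δ * l := by rw [div_le_iff₀ hδ0] at hn1'; linarith
  have h8 : (n : ℝ) ≤ δ * n * l := by nlinarith
  have h9 : l ≤ δ * n * l := by nlinarith
  have h10 : δ * m * l ≤ 2 * (δ * n * l) := by
    have : δ * m ≤ 2 * (δ * n) := by nlinarith
    nlinarith
  have h11 : 4 * (δ * n * l) ≤ ε * n * l := by
    have : 0 ≤ (n : ℝ) * l := by positivity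
    nlinarith
  nlinarith

end Pool.N3
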