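import Mathlib
import Pool.Agent.Helper77.N3.Final

set_option autoImplicit false

namespace Pool.N3

open Finset

lemma Gf_mono {c : ℝ} (hc : 0 < c) {a b : ℝ} (ha : 0 ≤ a) (hab : a ≤ b) : Gf c a ≤ Gf c b := by
  have h1 := Gf_diff_ge hc ha hab
  have h2 : 0 ≤ 1 / Real.sqrt (1 + c * b ^ 2) * (b - a) := by
    apply mul_nonneg (by positivity) (by linarith)
  linarith

lemma Gf_nonneg {c : ℝ} (hc : 0 < c) {a : ℝ} (ha : 0 ≤ a) : 0 ≤ Gf c a := by
  have := Gf_mono hc le_rfl ha
  rwa [Gf_zero] at this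

/-- `Gf` is 1-Lipschitz -/
lemma Gf_lip {c : ℝ} (hc : 0 < c) {a b : ℝ} (hab : a ≤ b) :
    Gf c b - Gf c a ≤ b - a := by
  have h : Gf c b - Gf c a ≤ 1 * (b - a) := by
    apply (convex_Icc a b).image_sub_le_mul_sub_of_deriv_le
    · exact fun x _ => (Gf_hasDeriv hc x).continuousAt.continuousWithinAt
    · exact fun x _ => (Gf_hasDeriv hc x).differentiableAt.differentiableWithinAt
    · intro x hx
      rw [(Gf_hasDeriv hc x).deriv]
      rw [div_le_one (Real.sqrt_pos.2 (by positivity))]
      rw [Real.one_le_sqrt]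
      have : 0 ≤ c * x ^ 2 := by positivity
      linarith
    · exact Set.left_mem_Icc.2 hab
    · exact Set.right_mem_Icc.2 hab
    · exact hab
  linarith

/-- counting with exactly `m` points, in power form -/
theorem card_fam_le (ε : ℝ) (hε : 0 < ε) : ∃ n0 : ℕ, 1 ≤ n0 ∧ ∀ n : ℕ, n0 ≤ n → ∀ m : ℕ,
    ((fam n m).card : ℝ) ≤ (n : ℝ) ^ ((n : ℝ) * (Gf (12 / Real.pi ^ 2) ((m : ℝ) / n) + ε)) := by
  obtain ⟨n0, hn0, hmain⟩ := log_card_le2 ε hε
  refine ⟨n0, hn0, ?_⟩
  intro n hn m
  have hnp : (0 : ℝ) < n := by exact_mod_cast (lt_of_lt_of_le hn0 hn)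
  rcases (fam n m).eq_empty_or_nonempty with h | h
  · rw [h, card_empty]
    have : (0 : ℝ) < (n : ℝ) ^ ((n : ℝ) * (Gf (12 / Real.pi ^ 2) ((m : ℝ) / n) + ε)) :=
      Real.rpow_pos_of_pos hnp _
    simpa using this.le
  · have h1 := hmain n hn m h
    have hcard : (0 : ℝ) < ((fam n m).card : ℝ) := by exact_mod_cast h.card_pos
    rw [← Real.log_le_log_iff hcard (Real.rpow_pos_of_pos hnp _), Real.log_rpow hnp]
    exact h1

open Classical in
/-- all no-three-in-line subsets of the grid with at most `κ n` points -/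
noncomputable def famLe (n : ℕ) (κ : ℝ) : Finset (Finset (ℤ × ℤ)) :=
  (box n).powerset.filter (fun S => NoThree S ∧ (S.card : ℝ) ≤ κ * n)

open Classical in
/-- **Main theorem**: the number of no-three-in-line sets with at most `κ n` points. -/
theorem card_famLe_le (ε : ℝ) (hε : 0 < ε) : ∃ n0 : ℕ, 1 ≤ n0 ∧ ∀ n : ℕ, n0 ≤ n → ∀ κ : ℝ, 0 ≤ κ →
    ((famLe n κ).card : ℝ) ≤ (n : ℝ) ^ ((n : ℝ) * (Gf (12 / Real.pi ^ 2) κ + ε)) := by
  obtain ⟨n0, hn0, hmain⟩ := card_fam_le (ε / 2) (by positivity)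
  obtain ⟨n1, hn1⟩ := exists_nat_ge (4 / ε)
  refine ⟨max (max n0 n1) 3, le_trans hn0 (le_trans (le_max_left _ _) (le_max_left _ _)), ?_⟩
  intro n hn κ hκ
  have hn0' : n0 ≤ n := le_trans (le_trans (le_max_left _ _) (le_max_left _ _)) hn
  have hn1' : (4 / ε : ℝ) ≤ n := hn1.trans (by
    exact_mod_cast le_trans (le_trans (le_max_right _ _) (le_max_left _ _)) hn)
  have hn3 : 3 ≤ n := le_trans (le_max_right _ _) hn
  have hnp : (0 : ℝ) < n := by exact_mod_cast (by omega : 0 < n)
  have hn3r : (3 : ℝ) ≤ n := by exact_mod_cast hn3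
  have hpi := Real.pi_pos
  have hc : 0 < 12 / Real.pi ^ 2 := by positivity
  have hsub : famLe n κ ⊆ ((range (2 * n + 1)).filter (fun m : ℕ => (m : ℝ) ≤ κ * n)).biUnion
      (fun m => fam n m) := by
    intro S hS
    unfold famLe at hS
    rw [mem_filter, mem_powerset] at hS
    rw [mem_biUnion]
    have hmem : S ∈ fam n S.card := mem_fam.2 ⟨⟨hS.1, rfl⟩, hS.2.1⟩
    refine ⟨S.card, ?_, hmem⟩
    rw [mem_filter, mem_range]
    exact ⟨by have := card_le_two_mul hmem; omega, hS.2.2⟩
  have h1 : ((famLe n κ).card : ℝ) ≤ ∑ m ∈ (range (2 * n + 1)).filter (fun m : ℕ => (m : ℝ) ≤ κ * n),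
      ((fam n m).card : ℝ) := by
    have := (card_le_card hsub).trans card_biUnion_le
    exact_mod_cast this
  have h2 : ∀ m ∈ (range (2 * n + 1)).filter (fun m : ℕ => (m : ℝ) ≤ κ * n),
      ((fam n m).card : ℝ) ≤ (n : ℝ) ^ ((n : ℝ) * (Gf (12 / Real.pi ^ 2) κ + ε / 2)) := by
    intro m hm
    rw [mem_filter] at hm
    refine (hmain n hn0' m).trans ?_
    apply Real.rpow_le_rpow_of_exponent_le (by linarith)
    apply mul_le_mul_of_nonneg_left _ hnp.le
    have : (m : ℝ) / n ≤ κ := by rw [div_le_iff₀ hnp]; exact hm.2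
    have := Gf_mono hc (a := (m : ℝ) / n) (by positivity) this
    linarith
  have h3 := sum_le_sum h2
  rw [sum_const, nsmul_eq_mul] at h3
  have h4 : (((range (2 * n + 1)).filter (fun m : ℕ => (m : ℝ) ≤ κ * n)).card : ℝ)
      ≤ (n : ℝ) ^ ((n : ℝ) * (ε / 2)) := by
    have h5 : ((range (2 * n + 1)).filter (fun m : ℕ => (m : ℝ) ≤ κ * n)).card ≤ 2 * n + 1 := by
      have := card_filter_le (range (2 * n + 1)) (fun m : ℕ => (m : ℝ) ≤ κ * n)
      rwa [card_range] at this
    have h6 : (((range (2 * n + 1)).filter (fun m : ℕ => (m : ℝ) ≤ κ * n)).card : ℝ)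
        ≤ 2 * n + 1 := by exact_mod_cast h5
    refine h6.trans ?_
    have h7 : 2 * (n : ℝ) + 1 ≤ (n : ℝ) ^ (2 : ℝ) := by
      rw [Real.rpow_two]; nlinarith
    refine h7.trans ?_
    apply Real.rpow_le_rpow_of_exponent_le (by linarith)
    rw [div_le_iff₀ hε] at hn1'
    linarith
  calc ((famLe n κ).card : ℝ) ≤ _ := h1
    _ ≤ _ := h3
    _ ≤ (n : ℝ) ^ ((n : ℝ) * (ε / 2)) * (n : ℝ) ^ ((n : ℝ) * (Gf (12 / Real.pi ^ 2) κ + ε / 2)) :=
        mul_le_mul_of_nonneg_right h4 (Real.rpow_pos_of_pos hnp _).le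
    _ = (n : ℝ) ^ ((n : ℝ) * (Gf (12 / Real.pi ^ 2) κ + ε)) := by
        rw [← Real.rpow_add hnp]
        congr 1
        ring

/-- number of `M`-subsets of the box containing a given set -/
lemma card_superset_le {α : Type*} [DecidableEq α] (B S : Finset α) (hS : S ⊆ B) (M : ℕ) :
    (((powersetCard M B).filter (fun W => S ⊆ W)).card : ℝ)
      ≤ ((M : ℝ) / B.card) ^ S.card * ((powersetCard M B).card : ℝ) := by
  rcases Nat.eq_zero_or_pos B.card with hB | hB
  · have hB' : B = ∅ := card_eq_zero.1 hB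
    subst hB'
    have hS' : S = ∅ := subset_empty.1 hS
    subst hS'
    simp
  have hBp : (0 : ℝ) < B.card := by exact_mod_cast hB
  by_cases hMS : S.card ≤ M
  · by_cases hMB : M ≤ B.card
    · -- exact count
      have h1 : ((powersetCard M B).filter (fun W => S ⊆ W)).card
          = (B.card - S.card).choose (M - S.card) := by
        have h2 : ((powersetCard M B).filter (fun W => S ⊆ W)).card
            = (powersetCard (M - S.card) (B \ S)).card := by
          apply card_bij' (fun W _ => W \ S) (fun T _ => T ∪ S)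
          · intro W hW
            rw [mem_filter, mem_powersetCard] at hW
            rw [mem_powersetCard]
            refine ⟨sdiff_subset_sdiff hW.1.1 (Subset.refl _), ?_⟩
            rw [card_sdiff_of_subset hW.2, hW.1.2]
          · intro T hT
            rw [mem_powersetCard] at hT
            have hdis : Disjoint T S := by
              rw [disjoint_left]
              intro x hx hxS
              exact (mem_sdiff.1 (hT.1 hx)).2 hxS
            rw [mem_filter, mem_powersetCard]
            refine ⟨⟨union_subset (hT.1.trans sdiff_subset) hS, ?_⟩, subset_union_right⟩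
            rw [card_union_of_disjoint hdis, hT.2]
            omega
          · intro W hW
            rw [mem_filter] at hW
            exact sdiff_union_of_subset hW.2
          · intro T hT
            rw [mem_powersetCard] at hT
            apply union_sdiff_cancel_right
            rw [disjoint_left]
            intro x hx hxS
            exact (mem_sdiff.1 (hT.1 hx)).2 hxS
        rw [h2, card_powersetCard, card_sdiff_of_subset hS]
      rw [h1, card_powersetCard]
      have h3 : B.card.choose M * M.choose S.card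
          = B.card.choose S.card * (B.card - S.card).choose (M - S.card) :=
        Nat.choose_mul hMS
      -- ratio of descending factorials
      have h4 : ∀ k : ℕ, k ≤ S.card → (M.descFactorial k : ℝ) * (B.card : ℝ) ^ k
          ≤ (B.card.descFactorial k : ℝ) * (M : ℝ) ^ k := by
        intro k
        induction k with
        | zero => intro _; simp
        | succ k ih =>
          intro hk
          have h5 := ih (by omega)
          rw [Nat.descFactorial_succ, Nat.descFactorial_succ, pow_succ, pow_succ]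
          push_cast
          rw [Nat.cast_sub (by omega), Nat.cast_sub (by omega)]
          have h6 : ((M : ℝ) - k) * B.card ≤ ((B.card : ℝ) - k) * M := by
            have h7 : (M : ℝ) ≤ B.card := by exact_mod_cast hMB
            have h8 : (0 : ℝ) ≤ k := Nat.cast_nonneg k
            nlinarith
          have h9 : (0 : ℝ) ≤ (M : ℝ) - k := by
            have : (k : ℝ) ≤ M := by exact_mod_cast (by omega : k ≤ M)
            linarith
          calc ((M : ℝ) - k) * (M.descFactorial k : ℝ) * ((B.card : ℝ) ^ k * B.card)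
              = ((M.descFactorial k : ℝ) * (B.card : ℝ) ^ k) * (((M : ℝ) - k) * B.card) := by ring
            _ ≤ ((B.card.descFactorial k : ℝ) * (M : ℝ) ^ k) * (((B.card : ℝ) - k) * M) := by
                apply mul_le_mul h5 h6 (by positivity) (by positivity)
            _ = ((B.card : ℝ) - k) * (B.card.descFactorial k : ℝ) * ((M : ℝ) ^ k * M) := by ring
      have h5 := h4 S.card le_rfl
      rw [Nat.descFactorial_eq_factorial_mul_choose, Nat.descFactorial_eq_factorial_mul_choose] at h5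
      push_cast at h5
      have hfac : (0 : ℝ) < (S.card.factorial : ℝ) := by exact_mod_cast Nat.factorial_pos _
      have h6 : (M.choose S.card : ℝ) * (B.card : ℝ) ^ S.card
          ≤ (B.card.choose S.card : ℝ) * (M : ℝ) ^ S.card := by
        have h7 : (S.card.factorial : ℝ) * ((M.choose S.card : ℝ) * (B.card : ℝ) ^ S.card)
            ≤ (S.card.factorial : ℝ) * ((B.card.choose S.card : ℝ) * (M : ℝ) ^ S.card) := by
          linarith
        exact le_of_mul_le_mul_left h7 hfac
      have h3' : (B.card.choose M : ℝ) * (M.choose S.card : ℝ)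
          = (B.card.choose S.card : ℝ) * ((B.card - S.card).choose (M - S.card) : ℝ) := by
        exact_mod_cast h3
      have hch : (0 : ℝ) < (B.card.choose S.card : ℝ) := by
        exact_mod_cast Nat.choose_pos (card_le_card hS)
      rw [div_pow, div_mul_eq_mul_div, le_div_iff₀ (by positivity)]
      have h8 : (B.card.choose S.card : ℝ) * (((B.card - S.card).choose (M - S.card) : ℝ)
          * (B.card : ℝ) ^ S.card) ≤ (B.card.choose S.card : ℝ) *
            ((M : ℝ) ^ S.card * (B.card.choose M : ℝ)) := by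
        calc (B.card.choose S.card : ℝ) * (((B.card - S.card).choose (M - S.card) : ℝ)
              * (B.card : ℝ) ^ S.card)
            = (B.card.choose M : ℝ) * ((M.choose S.card : ℝ) * (B.card : ℝ) ^ S.card) := by
              rw [← mul_assoc, ← h3']; ring
          _ ≤ (B.card.choose M : ℝ) * ((B.card.choose S.card : ℝ) * (M : ℝ) ^ S.card) :=
              mul_le_mul_of_nonneg_left h6 (by positivity)
          _ = _ := by ring
      exact le_of_mul_le_mul_left h8 hch
    · have : powersetCard M B = ∅ := powersetCard_eq_empty.2 (by omega)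
      rw [this]; simp
  · have : (powersetCard M B).filter (fun W => S ⊆ W) = ∅ := by
      apply filter_eq_empty_iff.2
      intro W hW hSW
      rw [mem_powersetCard] at hW
      have := card_le_card hSW
      omega
    rw [this, card_empty]
    push_cast
    positivity

open Classical in
/-- **Sparse random subsets of the grid**: almost no `M`-subset of the grid contains a
no-three-in-line set with at least `κ n` points. -/
theorem sparse (κ θ : ℝ) (hκ : 0 < κ)
    (hG : Gf (12 / Real.pi ^ 2) κ < (1 - θ) * κ) (δ : ℝ) (hδ : 0 < δ) :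
    ∃ n0 : ℕ, ∀ n : ℕ, n0 ≤ n → ∀ M : ℕ, (M : ℝ) ≤ (n : ℝ) ^ (1 + θ) →
      (((powersetCard M (box n)).filter
        (fun W => ∃ S ⊆ W, NoThree S ∧ κ * n ≤ (S.card : ℝ))).card : ℝ)
        ≤ δ * ((powersetCard M (box n)).card : ℝ) := by
  have hpi := Real.pi_pos
  have hc : 0 < 12 / Real.pi ^ 2 := by positivity
  set gap : ℝ := (1 - θ) * κ - Gf (12 / Real.pi ^ 2) κ with hgap
  have hgap0 : 0 < gap := by rw [hgap]; linarith
  have hθ1 : 0 < 1 - θ := by
    by_contra h
    push Not at h
    have h1 := Gf_nonneg hc hκ.le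
    have h2 : (1 - θ) * κ ≤ 0 := mul_nonpos_of_nonpos_of_nonneg h hκ.le
    linarith
  obtain ⟨n0, hn0, hmain⟩ := card_fam_le (gap / 4) (by positivity)
  -- n large
  have hlim : Filter.Tendsto (fun n : ℕ => Real.log (n : ℝ)) Filter.atTop Filter.atTop :=
    Real.tendsto_log_atTop.comp tendsto_natCast_atTop_atTop
  obtain ⟨n1, hn1⟩ := Filter.eventually_atTop.1 (hlim.eventually_ge_atTop
    (max 1 (2 / gap * (-Real.log δ))))
  obtain ⟨n2, hn2⟩ := exists_nat_ge (4 / gap)
  refine ⟨max (max n0 n1) (max n2 2), ?_⟩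
  intro n hn M hM
  have hn0' : n0 ≤ n := le_trans (le_trans (le_max_left _ _) (le_max_left _ _)) hn
  have hn1' := hn1 n (le_trans (le_trans (le_max_right _ _) (le_max_left _ _)) hn)
  have hn2' : (4 / gap : ℝ) ≤ n := hn2.trans (by
    exact_mod_cast le_trans (le_trans (le_max_left _ _) (le_max_right _ _)) hn)
  have hn3 : 2 ≤ n := le_trans (le_trans (le_max_right _ _) (le_max_right _ _)) hn
  have hnp : (0 : ℝ) < n := by exact_mod_cast (by omega : 0 < n)
  have hn1r : (1 : ℝ) < n := by exact_mod_cast (by omega : 1 < n)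
  set m := ⌈κ * n⌉₊ with hm
  have hm1 : κ * n ≤ m := Nat.le_ceil _
  have hm2 : (m : ℝ) < κ * n + 1 := Nat.ceil_lt_add_one (by positivity)
  -- union bound
  have hsub : (powersetCard M (box n)).filter
      (fun W => ∃ S ⊆ W, NoThree S ∧ κ * n ≤ (S.card : ℝ))
      ⊆ (fam n m).biUnion (fun S => (powersetCard M (box n)).filter (fun W => S ⊆ W)) := by
    intro W hW
    rw [mem_filter, mem_powersetCard] at hW
    obtain ⟨⟨hWB, hWM⟩, S, hSW, hS3, hSc⟩ := hW
    have hmS : m ≤ S.card := by
      rw [hm]; exact Nat.ceil_le.2 hSc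
    obtain ⟨T, hTS, hTc⟩ := exists_subset_card_eq hmS
    rw [mem_biUnion]
    refine ⟨T, ?_, ?_⟩
    · rw [mem_fam]
      refine ⟨⟨(hTS.trans hSW).trans hWB, hTc⟩, ?_⟩
      intro p hp q hq r hr
      exact hS3 p (hTS hp) q (hTS hq) r (hTS hr)
    · rw [mem_filter, mem_powersetCard]
      exact ⟨⟨hWB, hWM⟩, hTS.trans hSW⟩
  have h1 : (((powersetCard M (box n)).filter
        (fun W => ∃ S ⊆ W, NoThree S ∧ κ * n ≤ (S.card : ℝ))).card : ℝ)
      ≤ ∑ S ∈ fam n m, (((powersetCard M (box n)).filter (fun W => S ⊆ W)).card : ℝ) := by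
    have := (card_le_card hsub).trans card_biUnion_le
    exact_mod_cast this
  have h2 : ∀ S ∈ fam n m, (((powersetCard M (box n)).filter (fun W => S ⊆ W)).card : ℝ)
      ≤ ((M : ℝ) / (n : ℝ) ^ 2) ^ m * ((powersetCard M (box n)).card : ℝ) := by
    intro S hS
    rw [mem_fam] at hS
    have h3 := card_superset_le (box n) S hS.1.1 M
    rw [card_box, hS.1.2] at h3
    push_cast at h3
    exact h3
  have h3 := h1.trans (sum_le_sum h2)
  rw [sum_const, nsmul_eq_mul, ← mul_assoc] at h3
  refine h3.trans ?_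
  apply mul_le_mul_of_nonneg_right _ (by positivity)
  -- numerical estimate
  have h4 : (M : ℝ) / (n : ℝ) ^ 2 ≤ (n : ℝ) ^ (θ - 1) := by
    rw [div_le_iff₀ (by positivity)]
    have : (n : ℝ) ^ (θ - 1) * (n : ℝ) ^ 2 = (n : ℝ) ^ (1 + θ) := by
      rw [← Real.rpow_two, ← Real.rpow_add hnp]
      congr 1; ring
    rw [this]
    exact hM
  have h5 : ((M : ℝ) / (n : ℝ) ^ 2) ^ m ≤ (n : ℝ) ^ ((θ - 1) * m) := by
    have h6 := pow_le_pow_left₀ (by positivity) h4 m
    rw [Real.rpow_mul hnp.le, Real.rpow_natCast]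
    exact h6
  have h6 := hmain n hn0' m
  have h7 : ((fam n m).card : ℝ) * ((M : ℝ) / (n : ℝ) ^ 2) ^ m
      ≤ (n : ℝ) ^ ((n : ℝ) * (Gf (12 / Real.pi ^ 2) ((m : ℝ) / n) + gap / 4)) *
        (n : ℝ) ^ ((θ - 1) * m) :=
    mul_le_mul h6 h5 (by positivity) (Real.rpow_pos_of_pos hnp _).le
  refine h7.trans ?_
  rw [← Real.rpow_add hnp]
  have h8 : (n : ℝ) * (Gf (12 / Real.pi ^ 2) ((m : ℝ) / n) + gap / 4) + (θ - 1) * m
      ≤ -(gap / 2) * n := by
    have h9 : Gf (12 / Real.pi ^ 2) ((m : ℝ) / n) ≤ Gf (12 / Real.pi ^ 2) κ + 1 / n := by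
      have h10 : κ ≤ (m : ℝ) / n := by rw [le_div_iff₀ hnp]; exact hm1
      have h11 := Gf_lip hc h10
      have h12 : (m : ℝ) / n - κ ≤ 1 / n := by
        rw [sub_le_iff_le_add, div_le_iff₀ hnp]
        have : (1 / (n : ℝ) + κ) * n = 1 + κ * n := by field_simp
        rw [this]; linarith
      linarith
    have h10 : (θ - 1) * m ≤ (θ - 1) * (κ * n) :=
      mul_le_mul_of_nonpos_left hm1 (by linarith)
    have h11 : (n : ℝ) * (Gf (12 / Real.pi ^ 2) ((m : ℝ) / n) + gap / 4)
        ≤ n * (Gf (12 / Real.pi ^ 2) κ + 1 / n + gap / 4) :=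
      mul_le_mul_of_nonneg_left (by linarith) hnp.le
    have h12 : (n : ℝ) * (Gf (12 / Real.pi ^ 2) κ + 1 / n + gap / 4)
        = n * (Gf (12 / Real.pi ^ 2) κ + gap / 4) + 1 := by
      field_simp
      ring
    have h13 : 1 ≤ gap / 4 * n := by
      rw [div_le_iff₀ hgap0] at hn2'
      linarith
    have h14 : (θ - 1) * (κ * n) = -(gap * n) - n * Gf (12 / Real.pi ^ 2) κ := by
      rw [hgap]; ring
    rw [h14] at h10
    rw [h12] at h11
    nlinarith
  have h9 : (n : ℝ) ^ ((n : ℝ) * (Gf (12 / Real.pi ^ 2) ((m : ℝ) / n) + gap / 4) + (θ - 1) * m)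
      ≤ (n : ℝ) ^ (-(gap / 2) * n) :=
    Real.rpow_le_rpow_of_exponent_le hn1r.le h8
  refine h9.trans ?_
  have hl1 : 1 ≤ Real.log (n : ℝ) := (le_max_left _ _).trans hn1'
  have hl2 : 2 / gap * (-Real.log δ) ≤ Real.log (n : ℝ) := (le_max_right _ _).trans hn1'
  rw [← Real.log_le_log_iff (Real.rpow_pos_of_pos hnp _) hδ, Real.log_rpow hnp]
  have h10 : -(Real.log δ) ≤ gap / 2 * Real.log n := by
    rw [div_mul_eq_mul_div, div_le_iff₀ hgap0] at hl2
    linarith
  have h11 : gap / 2 * Real.log n ≤ gap / 2 * n * Real.log n := by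
    have : 0 ≤ gap / 2 * Real.log n := by positivity
    nlinarith
  linarith

end Pool.N3
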