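import Mathlib
import Pool.Agent.Helper77.N3.Total

set_option autoImplicit false

namespace Pool.N3

/-- the exponent `g(κ) = (π/√12) arsinh(√12 κ/π)` -/
noncomputable def gexp (κ : ℝ) : ℝ :=
  Real.pi / Real.sqrt 12 * Real.arsinh (Real.sqrt 12 * κ / Real.pi)

lemma Gf_eq_gexp (κ : ℝ) : Gf (12 / Real.pi ^ 2) κ = gexp κ := by
  have hpi := Real.pi_pos
  unfold Gf gexp
  have h1 : Real.sqrt (12 / Real.pi ^ 2) = Real.sqrt 12 / Real.pi := by
    rw [Real.sqrt_div (by norm_num), Real.sqrt_sq hpi.le]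
  have h2 : 0 < Real.sqrt 12 := Real.sqrt_pos.2 (by norm_num)
  rw [h1]
  have h3 : Real.sqrt 12 / Real.pi * κ = Real.sqrt 12 * κ / Real.pi := by ring
  rw [h3]
  field_simp

end Pool.N3
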